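import Pool.Agent.U863.CS.Loc

/-!
# The final forms
-/

set_option autoImplicit false

namespace Pool.Agent.U863.CS

open SimpleGraph
open Pool.Agent.Y110.FJ
open Pool.Agent.N509.TK (Sb)

/-- virtually polycyclic groups: finite series with cyclic or finite factors -/
inductive VPC : ∀ (G : Type) [Group G], Prop
  | triv (G : Type) [Group G] (h : Subsingleton G) : VPC G
  | ext (G : Type) [Group G] (N : Subgroup G) [N.Normal] (h : IsCyclic (G ⧸ N) ∨ Finite (G ⧸ N))
      (hN : VPC N) : VPC G

theorem VPC.pr {G : Type} [Group G] (h : VPC G) : ∃ n, PR n G := by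
  induction h with
  | triv G h => exact ⟨0, PR.triv G h⟩
  | ext G N h hN ih =>
    obtain ⟨n, hn⟩ := ih
    by_cases hf : Finite (G ⧸ N)
    · exact ⟨n, PR.fin n G N inferInstance Subgroup.finiteIndex_of_finite_quotient hn⟩
    · have hc : IsCyclic (G ⧸ N) := h.resolve_right hf
      have hi : Infinite (G ⧸ N) := not_finite_iff_infinite.1 hf
      let e : G ⧸ N ≃* Multiplicative ℤ := intCyclicMulEquiv.symm
      let j : Multiplicative ℤ →* Multiplicative ℚ := AddMonoidHom.toMultiplicative
        (Int.castAddHom ℚ)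
      have hj : Function.Injective j := fun x y hxy => Int.cast_injective (α := ℚ) hxy
      refine ⟨n + 1, PR.rk n G ((j.comp e.toMonoidHom).comp (QuotientGroup.mk' N)) ?_⟩
      refine hn.of_le ?_
      intro x hx
      have h1 : j (e (x : G ⧸ N)) = 1 := hx
      have h2 : e (x : G ⧸ N) = 1 := hj (by rw [h1, map_one])
      have h3 : (x : G ⧸ N) = 1 := e.injective (by rw [h2, map_one])
      exact (QuotientGroup.eq_one_iff x).1 h3

/-- the stabilizers of adjacent vertices -/
theorem com_of_adj {G V : Type} [Group G] [MulAction G V] {T : SimpleGraph V} (hT : T.IsTree)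
    (D : Subgroup G) (h : ∀ u v : V, T.Adj u v → (Sb D u).relIndex (Sb D v) ≠ 0) : Com V D := by
  intro u v
  obtain ⟨p⟩ := hT.connected.preconnected u v
  induction p with
  | nil =>
    rw [Subgroup.relIndex_self]
    exact one_ne_zero
  | cons hadj p ih => exact Subgroup.relIndex_ne_zero_trans (h _ _ hadj) ih

theorem PR.of_rel {G : Type} [Group G] {A B : Subgroup G} (h : A.relIndex B ≠ 0) {n : ℕ}
    (hA : PR n A) : PR n B := by
  have h1 : PR n (A.subgroupOf B) := by
    refine hA.inj _ ((B.subtype.comp (A.subgroupOf B).subtype).codRestrict A (fun x => x.2)) ?_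
    intro x y hxy
    exact Subtype.ext (Subtype.ext (congrArg (fun z : A => (z : G)) hxy))
  have h2 : (A.subgroupOf B).FiniteIndex := ⟨h⟩
  have h4 : (A.subgroupOf B).normalCore.FiniteIndex := inferInstance
  exact PR.fin n _ _ inferInstance h4 (h1.of_le (A.subgroupOf B).normalCore_le)

end Pool.Agent.U863.CS
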