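import Pool.Agent.U863.CS.Gau
import Pool.Agent.R779.FJ.Col
import Pool.Agent.Y961.FJ.Perm
import Pool.Agent.Y529.FJ.Ext
import Pool.Agent.Y430.SS.Lf

/-!
# Normal subgroups which act on a tree with finite stabilizers of bounded order
-/

set_option autoImplicit false

namespace Pool.Agent.U863.CS

open SimpleGraph
open Pool.Agent.Y110.FJ
open Pool.Agent.N509.TK (Sb Sb_conj Sb_le Sb_normal mem_Sb Tq Tv quot_tree)
open Pool.Agent.R941.FJ (C_equiv C_le C_cyc mem_sup_normal)

/-- a finite subset generates a finite subgroup -/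
def LF {G : Type} [Group G] (N : Subgroup G) : Prop :=
  ∀ E : Set G, E.Finite → E ⊆ N → Finite (Subgroup.closure E)

/-- extensions with a locally finite kernel -/
theorem lf_kernel {C : ∀ (G : Type) [Group G], Prop} (hC : ClosedE C) {G : Type} [Group G]
    (N : Subgroup G) [N.Normal] (hN : LF N) (hQ : C (G ⧸ N)) : C G := by
  refine Pool.Agent.R779.FJ.t_crit Pool.Agent.Y529.FJ.t_ext
    (Pool.Agent.Y961.FJ.t_perm Pool.Agent.Y529.FJ.t_ext) C hC G N hQ ?_
  intro g E hE hEN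
  obtain ⟨M, hM⟩ : ∃ M, M = Subgroup.closure (E ∪ (fun x => g * x * g⁻¹) '' E) := ⟨_, rfl⟩
  have hfin : Finite M := by
    rw [hM]
    refine hN _ (hE.union (hE.image _)) ?_
    rintro x (hx | ⟨y, hy, rfl⟩)
    · exact hEN hx
    · exact Subgroup.Normal.conj_mem inferInstance y (hEN hy) g
  have hE0 : Subgroup.closure E ≤ M := by
    rw [hM]
    exact Subgroup.closure_mono Set.subset_union_left
  have hE1 : Subgroup.closure E ≤ M.comap (MulAut.conj g).toMonoidHom := by
    rw [Subgroup.closure_le]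
    intro x hx
    show g * x * g⁻¹ ∈ M
    rw [hM]
    exact Subgroup.subset_closure (Or.inr ⟨x, hx, rfl⟩)
  have hfin0 : Finite (Subgroup.closure E) :=
    Finite.of_injective (Subgroup.inclusion hE0) (Subgroup.inclusion_injective _)
  let L : M →* Equiv.Perm M := MulAction.toPermHom M M
  let c : Subgroup.closure E →* M :=
    ((MulAut.conj g).toMonoidHom.comp (Subgroup.subtype _)).codRestrict M (fun x => hE1 x.2)
  obtain ⟨β, hβ⟩ := free_conj (L.comp (Subgroup.inclusion hE0)) (L.comp c)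
    (fun e he x h => by
      have h1 : (Subgroup.inclusion hE0 e) * x = x := h
      have h2 : Subgroup.inclusion hE0 e = 1 := mul_eq_right.1 h1
      exact he (Subtype.ext (congrArg (fun z : M => (z : G)) h2)))
    (fun e he x h => by
      have h1 : c e * x = x := h
      have h2 : c e = 1 := mul_eq_right.1 h1
      have h3 : g * (e : G) * g⁻¹ = 1 := congrArg (fun z : M => (z : G)) h2
      apply he
      apply Subtype.ext
      show (e : G) = 1
      have h4 : (e : G) = g⁻¹ * (g * (e : G) * g⁻¹) * g := by group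
      rw [h4, h3]
      group) rfl
  have hLi : Function.Injective L := by
    rw [injective_iff_map_eq_one]
    intro a ha
    have h1 : (L a) 1 = (1 : M) := by
      rw [ha]
      rfl
    have h2 : a * 1 = (1 : M) := h1
    rwa [mul_one] at h2
  rw [Realized, ← hM]
  refine ⟨Equiv.Perm M, inferInstance, L, β,
    Pool.Agent.Y430.SS.of_finite hC.base _ inferInstance, hLi, ?_⟩
  intro x y hx hy
  have hxE : (x : G) ∈ Subgroup.closure E := Subgroup.subset_closure hx
  ext1 m
  obtain ⟨n, rfl⟩ : ∃ n, m = β n := ⟨β.symm m, (Equiv.apply_symm_apply _ _).symm⟩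
  have h1 := hβ ⟨x, hxE⟩ n
  show y * β n = β (L x (β.symm (β n)))
  rw [Equiv.symm_apply_apply]
  have h2 : β (L x n) = β (x * n) := rfl
  have h3 : (L.comp (Subgroup.inclusion hE0)) ⟨x, hxE⟩ n = x * n := rfl
  have h4 : (L.comp c) ⟨x, hxE⟩ (β n) = y * β n := by
    have h5 : c ⟨x, hxE⟩ = y := Subtype.ext hy.symm
    show c ⟨x, hxE⟩ * β n = y * β n
    rw [h5]
  rw [h2, ← h3, h1, h4]

section fam

variable {G V : Type} {T : SimpleGraph V} [Group G]

/-- free homomorphisms to a symmetric group -/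
def FP (A : Subgroup G) (N : ℕ) (f : G → Equiv.Perm (Fin N)) : Prop :=
  PH A f ∧ ∀ x ∈ A, x ≠ 1 → ∀ i, f x i ≠ i

theorem FP.ex {A B : Subgroup G} {N : ℕ} (hfin : Finite A) (hA : Nat.card A ∣ N)
    {f : G → Equiv.Perm (Fin N)} (hf : FP B N f) :
    ∃ g : G → Equiv.Perm (Fin N), FP A N g ∧ ∀ x ∈ A, x ∈ B → g x = f x := by
  obtain ⟨g, h1, h2, h3⟩ := ext_free A B hA f hf.1 hf.2
  exact ⟨g, ⟨h1, h2⟩, h3⟩

/-- the homomorphism of the last vertex group given by a walk -/
noncomputable def ch {R : V → Subgroup G} {N : ℕ} (hfin : ∀ v, Finite (R v))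
    (hdiv : ∀ v, Nat.card (R v) ∣ N) {o : V} (f0 : {f : G → Equiv.Perm (Fin N) // FP (R o) N f}) :
    ∀ {v : V}, T.Walk v o → {f : G → Equiv.Perm (Fin N) // FP (R v) N f}
  | _, .nil => f0
  | v, .cons (v := _) _ p =>
    ⟨Classical.choose (FP.ex (hfin v) (hdiv v) (ch hfin hdiv f0 p).2),
      (Classical.choose_spec (FP.ex (hfin v) (hdiv v) (ch hfin hdiv f0 p).2)).1⟩

theorem ch_cons {R : V → Subgroup G} {N : ℕ} (hfin : ∀ v, Finite (R v))
    (hdiv : ∀ v, Nat.card (R v) ∣ N) {o : V} (f0 : {f : G → Equiv.Perm (Fin N) // FP (R o) N f})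
    {u v : V} (h : T.Adj v u) (p : T.Walk u o) :
    ∀ x ∈ R v, x ∈ R u → (ch hfin hdiv f0 (.cons h p)).1 x = (ch hfin hdiv f0 p).1 x :=
  (Classical.choose_spec (FP.ex (hfin v) (hdiv v) (ch hfin hdiv f0 p).2)).2

/-- a compatible family of free homomorphisms -/
theorem exists_fam (hT : T.IsTree) {R : V → Subgroup G} {N : ℕ} (hfin : ∀ v, Finite (R v))
    (hdiv : ∀ v, Nat.card (R v) ∣ N) :
    ∃ χ : V → G → Equiv.Perm (Fin N), (∀ v, FP (R v) N (χ v)) ∧
      ∀ u v, T.Adj u v → ∀ x ∈ R u, x ∈ R v → χ u x = χ v x := by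
  classical
  obtain ⟨o⟩ := hT.connected.nonempty
  obtain ⟨f0, hf0⟩ : ∃ f : G → Equiv.Perm (Fin N), FP (R o) N f := by
    obtain ⟨g, hg, -⟩ := FP.ex (A := R o) (B := ⊥) (hfin o) (hdiv o) (f := fun _ => 1)
      ⟨fun _ _ _ _ => (mul_one _).symm, fun x hx hx1 => absurd (Subgroup.mem_bot.1 hx) hx1⟩
    exact ⟨g, hg⟩
  have hpath : ∀ v, ∃ p : T.Walk v o, p.IsPath := fun v => by
    obtain ⟨p, hp, -⟩ := hT.existsUnique_path v o
    exact ⟨p, hp⟩
  choose P hP using hpath
  have huniq : ∀ v (q : T.Walk v o), q.IsPath → q = P v := fun v q hq =>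
    (hT.existsUnique_path v o).unique hq (hP v)
  refine ⟨fun v => (ch hfin hdiv ⟨f0, hf0⟩ (P v)).1, fun v => (ch hfin hdiv ⟨f0, hf0⟩ (P v)).2, ?_⟩
  have key : ∀ u v, T.Adj u v → v ∉ (P u).support → ∀ x ∈ R u, x ∈ R v →
      (ch hfin hdiv ⟨f0, hf0⟩ (P v)).1 x = (ch hfin hdiv ⟨f0, hf0⟩ (P u)).1 x := by
    intro u v huv hv x hxu hxv
    have h1 : (Walk.cons huv.symm (P u)).IsPath := (Walk.cons_isPath_iff _ _).2 ⟨hP u, hv⟩
    rw [← huniq v _ h1]
    exact ch_cons hfin hdiv _ huv.symm (P u) x hxv hxu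
  intro u v huv x hxu hxv
  by_cases hv : v ∈ (P u).support
  · have hu : u ∉ (P v).support := by
      intro hu
      have hstep : ∀ a b : V, T.Adj a b → b ∈ (P a).support → ∃ q : T.Walk b o, a ∉ q.support := by
        intro a b hab hb
        refine ⟨(P a).dropUntil b hb, fun h => ?_⟩
        have h3 := (Walk.take_spec (P a) hb)
        have h4 : (P a).support.Nodup := (hP a).support_nodup
        rw [← h3, Walk.support_append] at h4
        have h5 : a ∈ ((P a).takeUntil b hb).support := Walk.start_mem_support _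
        have h6 : a ∈ ((P a).dropUntil b hb).support.tail := by
          rw [← Walk.cons_tail_support, List.mem_cons] at h
          exact h.resolve_left hab.ne
        exact (List.nodup_append.1 h4).2.2 a h5 a h6 rfl
      obtain ⟨q, hq⟩ := hstep u v huv hv
      have h3 : q.bypass = P v := huniq v _ q.bypass_isPath
      apply hq
      apply q.support_bypass_subset_support
      rw [h3]
      exact hu
    exact key v u huv.symm hu x hxv hxu
  · exact (key u v huv hv x hxu hxv).symm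

end fam

/-- the intersection of the kernels of all homomorphisms to the symmetric group -/
def F0 {G : Type} [Group G] (H : Subgroup G) (N : ℕ) : Subgroup G where
  carrier := {x | ∃ h : x ∈ H, ∀ φ : H →* Equiv.Perm (Fin N), φ ⟨x, h⟩ = 1}
  one_mem' := ⟨H.one_mem, fun φ => map_one φ⟩
  mul_mem' := by
    rintro x y ⟨hx, hx'⟩ ⟨hy, hy'⟩
    refine ⟨mul_mem hx hy, fun φ => ?_⟩
    have h1 : φ (⟨x, hx⟩ * ⟨y, hy⟩) = 1 := by rw [map_mul, hx', hy', mul_one]
    exact h1
  inv_mem' := by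
    rintro x ⟨hx, hx'⟩
    refine ⟨inv_mem hx, fun φ => ?_⟩
    have h1 : φ (⟨x, hx⟩⁻¹) = 1 := by rw [map_inv, hx', inv_one]
    exact h1

theorem F0_le {G : Type} [Group G] (H : Subgroup G) (N : ℕ) : F0 H N ≤ H := fun _ hx => hx.1

theorem F0_normal {G : Type} [Group G] (H : Subgroup G) [hH : H.Normal] (N : ℕ) :
    (F0 H N).Normal := by
  refine ⟨fun x hx g => ?_⟩
  obtain ⟨hx, hx'⟩ := hx
  refine ⟨hH.conj_mem x hx g, fun φ => ?_⟩
  exact hx' (φ.comp (MulAut.conjNormal (H := H) g).toMonoidHom)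

/-- the quotient is locally finite -/
theorem F0_lf {G : Type} [Group G] (H : Subgroup G) [H.Normal] (N : ℕ) [(F0 H N).Normal] :
    LF (H.map (QuotientGroup.mk' (F0 H N))) := by
  classical
  intro E hE hEH
  obtain ⟨Q, hQ⟩ : ∃ Q : Subgroup (G ⧸ F0 H N), Q = H.map (QuotientGroup.mk' (F0 H N)) := ⟨_, rfl⟩
  rw [← hQ] at hEH
  -- the evaluation
  have hcl : Subgroup.closure E ≤ Q := by
    rw [Subgroup.closure_le]
    exact hEH
  let θ : H →* ((H →* Equiv.Perm (Fin N)) → Equiv.Perm (Fin N)) :=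
    { toFun := fun x φ => φ x
      map_one' := by
        funext φ
        exact map_one φ
      map_mul' := fun x y => by
        funext φ
        exact map_mul φ x y }
  have hfac : ∀ x : Q, ∃ y : H, ((y : G) : G ⧸ F0 H N) = x := by
    rintro ⟨x, hx⟩
    rw [hQ] at hx
    obtain ⟨y, hy, rfl⟩ := hx
    exact ⟨⟨y, hy⟩, rfl⟩
  have hθ : ∀ y z : H, ((y : G) : G ⧸ F0 H N) = ((z : G) : G ⧸ F0 H N) ↔ θ y = θ z := by
    intro y z
    rw [QuotientGroup.eq]
    constructor
    · rintro ⟨h1, h2⟩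
      have h3 : θ (y⁻¹ * z) = 1 := by
        funext φ
        exact h2 φ
      rw [map_mul, map_inv, inv_mul_eq_one] at h3
      exact h3
    · intro h
      refine ⟨mul_mem (inv_mem y.2) z.2, fun φ => ?_⟩
      have h3 : θ (y⁻¹ * z) = 1 := by rw [map_mul, map_inv, h, inv_mul_cancel]
      exact congrFun h3 φ
  choose σ hσ using hfac
  let Θ : Q →* ((H →* Equiv.Perm (Fin N)) → Equiv.Perm (Fin N)) :=
    { toFun := fun x => θ (σ x)
      map_one' := by
        have h1 : θ (σ 1) = θ 1 := (hθ _ _).1 (by rw [hσ]; rfl)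
        rw [h1, map_one]
      map_mul' := fun x y => by
        have h1 : θ (σ (x * y)) = θ (σ x * σ y) := (hθ _ _).1 (by
          rw [hσ]
          show (x : G ⧸ F0 H N) * y = ((((σ x : G)) * ((σ y : G)) : G) : G ⧸ F0 H N)
          rw [QuotientGroup.mk_mul, hσ, hσ])
        rw [h1, map_mul] }
  have hΘ : Function.Injective Θ := by
    intro x y h
    have h1 : θ (σ x) = θ (σ y) := h
    have h2 := (hθ _ _).2 h1
    rw [hσ, hσ] at h2
    exact Subtype.ext h2
  obtain ⟨E', hE'⟩ : ∃ E' : Set Q, E' = (fun x : Q => (x : G ⧸ F0 H N)) ⁻¹' E := ⟨_, rfl⟩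
  have hE'fin : E'.Finite := by
    rw [hE']
    exact hE.preimage (Set.injOn_of_injective Subtype.val_injective)
  have hfin1 := Pool.Agent.Y430.SS.t_pow (Equiv.Perm (Fin N)) (H →* Equiv.Perm (Fin N)) inferInstance
    (hE'fin.image Θ).toFinset
  have h1 : Subgroup.closure ((hE'fin.image Θ).toFinset : Set ((H →* Equiv.Perm (Fin N)) →
      Equiv.Perm (Fin N))) = (Subgroup.closure E').map Θ := by
    rw [Set.Finite.coe_toFinset, MonoidHom.map_closure]
  rw [h1] at hfin1
  have hfin2 : Finite (Subgroup.closure E') :=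
    Finite.of_equiv _ ((Subgroup.closure E').equivMapOfInjective Θ hΘ).symm.toEquiv
  have h2 : Subgroup.closure E = (Subgroup.closure E').map Q.subtype := by
    rw [MonoidHom.map_closure, hE']
    congr 1
    ext x
    constructor
    · intro hx
      exact ⟨⟨x, hEH hx⟩, hx, rfl⟩
    · rintro ⟨y, hy, rfl⟩
      exact hy
  rw [h2]
  exact Finite.of_equiv _ ((Subgroup.closure E').equivMapOfInjective Q.subtype
    Subtype.val_injective).toEquiv

section tree

variable {G V : Type} {T : SimpleGraph V} [Group G] [MulAction G V]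
  {C : ∀ (G : Type) [Group G], Prop}

/-- a homomorphism to a finite symmetric group injective on the stabilizers -/
theorem exists_inj (hT : T.IsTree) (hact : ∀ (g : G) (u v : V), T.Adj u v → T.Adj (g • u) (g • v))
    (L : Subgroup G) [L.Normal] {N : ℕ} (hN : 0 < N) (hfin : ∀ v : V, Finite (Sb L v))
    (hdiv : ∀ v : V, Nat.card (Sb L v) ∣ N) :
    ∃ φ : (⨆ v : V, Sb L v : Subgroup G) →* Equiv.Perm (Fin N),
      ∀ (v : V) (x : G) (hx : x ∈ (⨆ v : V, Sb L v : Subgroup G)), x ∈ Sb L v →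
        φ ⟨x, hx⟩ = 1 → x = 1 := by
  obtain ⟨χ, hχ, hc⟩ := exists_fam hT hfin hdiv
  obtain ⟨φ, hφ, hφv⟩ := exists_hom hT hact L χ (fun v => (hχ v).1) hc
  refine ⟨hφ.hom, fun v x hx hxv h => ?_⟩
  obtain ⟨c, w, s, hs, h1⟩ := hφv v
  obtain ⟨h2, h3⟩ := h1 x hxv
  have h4 : φ x = 1 := h
  rw [h3, mul_inv_eq_one, mul_eq_left] at h4
  by_contra hx1
  have h5 : s⁻¹ * x * s ≠ 1 := by
    intro h6
    apply hx1
    have h7 : x = s * (s⁻¹ * x * s) * s⁻¹ := by group
    rw [h7, h6]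
    group
  have h8 := (hχ w).2 _ h2 h5 ⟨0, hN⟩
  rw [h4] at h8
  exact h8 rfl

/-- the quotient by the group generated by the stabilizers -/
theorem C_quot_Sb (hC : ClosedE C) (hT : T.IsTree)
    (hact : ∀ (g : G) (u v : V), T.Adj u v → T.Adj (g • u) (g • v))
    (L : Subgroup G) [L.Normal] (hQ : C (G ⧸ L)) [(⨆ v : V, Sb L v).Normal] :
    C (G ⧸ (⨆ v : V, Sb L v)) := by
  obtain ⟨S, hS⟩ := Tv.exists (R := Sb (V := V) L) hT
  have hq := Tq.of_Sb hT hact L hS
  refine quot_tree hC hT hact hq (QuotientGroup.mk' L) hQ ?_ ?_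
  · intro h hh
    exact (QuotientGroup.eq_one_iff h).2 (Sb_le (V := V) L hh)
  · intro v g hg hgL
    exact le_iSup (Sb L) v (mem_Sb.2 ⟨hg, (QuotientGroup.eq_one_iff g).1 hgL⟩)

/-- **finite stabilizers of bounded order** -/
theorem bounded (hC : ClosedE C) (hT : T.IsTree)
    (hact : ∀ (g : G) (u v : V), T.Adj u v → T.Adj (g • u) (g • v))
    (L : Subgroup G) [L.Normal] (hQ : C (G ⧸ L)) {n : ℕ} (hfin : ∀ v : V, Finite (Sb L v))
    (hn : ∀ v : V, Nat.card (Sb L v) ≤ n) : C G := by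
  have hHn : (⨆ v : V, Sb L v).Normal := Sb_normal L
  obtain ⟨φ, hφ⟩ := exists_inj hT hact L (Nat.factorial_pos n) hfin
    (fun v => Nat.dvd_factorial (by have := hfin v; exact Nat.card_pos) (hn v))
  obtain ⟨H, hH⟩ : ∃ H : Subgroup G, H = ⨆ v : V, Sb L v := ⟨_, rfl⟩
  have hle : ∀ v : V, Sb L v ≤ H := fun v => by
    rw [hH]
    exact le_iSup (Sb L) v
  have hGH := C_quot_Sb hC hT hact L hQ
  rw [← hH] at hHn
  obtain ⟨φ, hφ⟩ : ∃ φ : H →* Equiv.Perm (Fin n.factorial), ∀ (v : V) (x : G) (hx : x ∈ H),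
      x ∈ Sb L v → φ ⟨x, hx⟩ = 1 → x = 1 := by
    subst hH
    exact ⟨φ, hφ⟩
  have hGH' : C (G ⧸ H) := by
    subst hH
    exact hGH
  have hFn : (F0 H n.factorial).Normal := F0_normal H _
  have hP : C (G ⧸ F0 H n.factorial) := by
    have hNn : (H.map (QuotientGroup.mk' (F0 H n.factorial))).Normal :=
      Subgroup.Normal.map inferInstance _ (QuotientGroup.mk'_surjective _)
    refine lf_kernel hC (H.map (QuotientGroup.mk' (F0 H n.factorial))) (F0_lf H _) ?_
    exact C_equiv hC.base (QuotientGroup.quotientQuotientEquivQuotient _ H (F0_le H _)) hGH'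
  refine N24.TR.tree_local hC hT hact fun v => ⟨(G ⧸ F0 H n.factorial) × (G ⧸ L), inferInstance,
    (QuotientGroup.mk' _).prod (QuotientGroup.mk' L), hC.base.prod _ _ hP hQ, ?_⟩
  intro g hg hg1
  have h1 : g ∈ L := (QuotientGroup.eq_one_iff g).1 (congrArg Prod.snd hg1)
  have h2 : g ∈ F0 H n.factorial := (QuotientGroup.eq_one_iff g).1 (congrArg Prod.fst hg1)
  exact hφ v g h2.1 (mem_Sb.2 ⟨hg, h1⟩) (h2.2 φ)

end tree

end Pool.Agent.U863.CS
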