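import Mathlib

/-!
# Free actions of finite groups on finite sets
-/

set_option autoImplicit false

namespace Pool.Agent.U863.CS

section orb

variable {E X : Type} [Group E] [MulAction E X]

/-- a free action is a product -/
noncomputable def orbEq (hX : ∀ (e : E) (x : X), e • x = x → e = 1) :
    MulAction.orbitRel.Quotient E X × E ≃ X :=
  Equiv.ofBijective (fun p => p.2 • (Quotient.out p.1 : X)) (by
    constructor
    · rintro ⟨ω, e⟩ ⟨ω', e'⟩ h
      have h1 : e • (Quotient.out ω : X) = e' • (Quotient.out ω' : X) := h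
      have h2 : ω = ω' := by
        rw [← Quotient.out_eq ω, ← Quotient.out_eq ω']
        apply Quotient.sound
        show (Quotient.out ω : X) ∈ MulAction.orbit E (Quotient.out ω' : X)
        refine ⟨e⁻¹ * e', ?_⟩
        show (e⁻¹ * e') • (Quotient.out ω' : X) = _
        rw [mul_smul, ← h1, inv_smul_smul]
      subst h2
      have h3 : e⁻¹ * e' = 1 := hX _ (Quotient.out ω : X) (by rw [mul_smul, ← h1, inv_smul_smul])
      have h4 : e = e' := by
        rw [inv_mul_eq_one] at h3
        exact h3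
      rw [h4]
    · intro x
      have h1 : (Quotient.out (Quotient.mk (MulAction.orbitRel E X) x) : X) ∈ MulAction.orbit E x :=
        Quotient.exact (Quotient.out_eq (Quotient.mk (MulAction.orbitRel E X) x))
      obtain ⟨e, he⟩ := h1
      have he' : e • x = (Quotient.out (Quotient.mk (MulAction.orbitRel E X) x) : X) := he
      exact ⟨(Quotient.mk _ x, e⁻¹), by
        show e⁻¹ • (Quotient.out (Quotient.mk (MulAction.orbitRel E X) x) : X) = x
        rw [← he', inv_smul_smul]⟩)

theorem orbEq_apply (hX : ∀ (e : E) (x : X), e • x = x → e = 1)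
    (p : MulAction.orbitRel.Quotient E X × E) : orbEq hX p = p.2 • (Quotient.out p.1 : X) := rfl

theorem orbEq_symm (hX : ∀ (e : E) (x : X), e • x = x → e = 1) (e : E) (x : X) :
    (orbEq hX).symm (e • x) = (((orbEq hX).symm x).1, e * ((orbEq hX).symm x).2) := by
  rw [Equiv.symm_apply_eq, orbEq_apply]
  show e • x = (e * ((orbEq hX).symm x).2) • (Quotient.out ((orbEq hX).symm x).1 : X)
  rw [mul_smul, ← orbEq_apply hX, Equiv.apply_symm_apply]

end orb

/-- free actions of a finite group on finite sets of the same size are isomorphic -/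
theorem free_iso {E X Y : Type} [Group E] [Finite E] [MulAction E X] [MulAction E Y] [Finite X]
    [Finite Y] (hX : ∀ (e : E) (x : X), e • x = x → e = 1)
    (hY : ∀ (e : E) (y : Y), e • y = y → e = 1) (hc : Nat.card X = Nat.card Y) :
    ∃ β : X ≃ Y, ∀ (e : E) (x : X), β (e • x) = e • β x := by
  have h1 : Nat.card (MulAction.orbitRel.Quotient E X) * Nat.card E = Nat.card X := by
    rw [← Nat.card_prod, Nat.card_congr (orbEq hX)]
  have h2 : Nat.card (MulAction.orbitRel.Quotient E Y) * Nat.card E = Nat.card Y := by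
    rw [← Nat.card_prod, Nat.card_congr (orbEq hY)]
  have h3 : Nat.card (MulAction.orbitRel.Quotient E X) = Nat.card (MulAction.orbitRel.Quotient E Y) :=
    Nat.eq_of_mul_eq_mul_right Nat.card_pos (h1.trans (hc.trans h2.symm))
  have hf1 : Finite (MulAction.orbitRel.Quotient E X) := Quotient.finite _
  have hf2 : Finite (MulAction.orbitRel.Quotient E Y) := Quotient.finite _
  obtain ⟨σ⟩ : Nonempty (MulAction.orbitRel.Quotient E X ≃ MulAction.orbitRel.Quotient E Y) :=
    Finite.card_eq.1 h3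
  refine ⟨((orbEq hX).symm.trans (σ.prodCongr (Equiv.refl E))).trans (orbEq hY), fun e x => ?_⟩
  show orbEq hY ((σ.prodCongr (Equiv.refl E)) ((orbEq hX).symm (e • x))) =
    e • orbEq hY ((σ.prodCongr (Equiv.refl E)) ((orbEq hX).symm x))
  rw [orbEq_symm, orbEq_apply, orbEq_apply, ← mul_smul]
  rfl

/-- the same for homomorphisms -/
theorem free_conj {E X Y : Type} [Group E] [Finite E] [Finite X] [Finite Y]
    (a : E →* Equiv.Perm X) (b : E →* Equiv.Perm Y) (ha : ∀ e, e ≠ 1 → ∀ x, a e x ≠ x)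
    (hb : ∀ e, e ≠ 1 → ∀ x, b e x ≠ x) (hc : Nat.card X = Nat.card Y) :
    ∃ β : X ≃ Y, ∀ e x, β (a e x) = b e (β x) := by
  let _ : MulAction E X := MulAction.compHom X a
  let _ : MulAction E Y := MulAction.compHom Y b
  exact free_iso (E := E) (X := X) (Y := Y)
    (fun e x h => by_contra fun he => ha e he x h) (fun e x h => by_contra fun he => hb e he x h) hc

variable {G M : Type} [Group G] [Group M]

/-- `f` is a homomorphism on `A` -/
def PH (A : Subgroup G) (f : G → M) : Prop := ∀ x ∈ A, ∀ y ∈ A, f (x * y) = f x * f y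

theorem PH.mono {A B : Subgroup G} {f : G → M} (h : PH A f) (hB : B ≤ A) : PH B f :=
  fun x hx y hy => h x (hB hx) y (hB hy)

theorem PH.one {A : Subgroup G} {f : G → M} (h : PH A f) : f 1 = 1 := by
  have h1 := h 1 A.one_mem 1 A.one_mem
  rw [mul_one] at h1
  exact left_eq_mul.1 h1

theorem PH.inv {A : Subgroup G} {f : G → M} (h : PH A f) {x : G} (hx : x ∈ A) :
    f x⁻¹ = (f x)⁻¹ := by
  have h1 := h x hx x⁻¹ (A.inv_mem hx)
  rw [mul_inv_cancel, h.one] at h1
  exact eq_inv_of_mul_eq_one_right h1.symm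

/-- the homomorphism -/
def PH.hom {A : Subgroup G} {f : G → M} (h : PH A f) : A →* M where
  toFun x := f x
  map_one' := h.one
  map_mul' x y := h x x.2 y y.2

/-- left multiplication on copies of a group -/
def lm (A : Type) [Group A] (m : ℕ) : A →* Equiv.Perm (A × Fin m) where
  toFun a := (Equiv.mulLeft a).prodCongr (Equiv.refl _)
  map_one' := by
    ext1 ⟨x, i⟩
    show (1 * x, i) = (x, i)
    rw [one_mul]
  map_mul' a b := by
    ext1 ⟨x, i⟩
    show (a * b * x, i) = (a * (b * x), i)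
    rw [mul_assoc]

/-- extension of free actions -/
theorem ext_free (A B : Subgroup G) [Finite A] {N : ℕ} (hA : Nat.card A ∣ N)
    (f : G → Equiv.Perm (Fin N)) (hf : PH B f) (hff : ∀ x ∈ B, x ≠ 1 → ∀ i, f x i ≠ i) :
    ∃ g : G → Equiv.Perm (Fin N), PH A g ∧ (∀ x ∈ A, x ≠ 1 → ∀ i, g x i ≠ i) ∧
      ∀ x ∈ A, x ∈ B → g x = f x := by
  classical
  obtain ⟨m, rfl⟩ := hA
  have hfin : Finite ↥(A ⊓ B) := Finite.of_injective (Subgroup.inclusion (inf_le_left : A ⊓ B ≤ A))
    (Subgroup.inclusion_injective _)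
  obtain ⟨β, hβ⟩ := free_conj (E := ↥(A ⊓ B)) (X := Fin (Nat.card A * m)) (Y := A × Fin m)
    (hf.mono inf_le_right).hom ((lm A m).comp (Subgroup.inclusion inf_le_left))
    (fun e he x => hff e e.2.2 (fun h => he (Subtype.ext h)) x)
    (fun e he x h => by
      have h1 : (Subgroup.inclusion inf_le_left e : A) * x.1 = x.1 := congrArg Prod.fst h
      have h2 : (Subgroup.inclusion (inf_le_left : A ⊓ B ≤ A) e : A) = 1 := mul_eq_right.1 h1
      exact he (Subtype.ext (congrArg (fun z : A => (z : G)) h2)))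
    (by rw [Nat.card_prod, Nat.card_fin, Nat.card_fin])
  obtain ⟨g, hg⟩ : ∃ g : G → Equiv.Perm (Fin (Nat.card A * m)), ∀ (x : G) (hx : x ∈ A),
      g x = (β.trans (lm A m ⟨x, hx⟩)).trans β.symm := by
    refine ⟨fun x => if hx : x ∈ A then (β.trans (lm A m ⟨x, hx⟩)).trans β.symm else 1, ?_⟩
    intro x hx
    exact dif_pos hx
  refine ⟨g, ?_, ?_, ?_⟩
  · intro x hx y hy
    rw [hg _ (mul_mem hx hy), hg _ hx, hg _ hy]
    ext1 i
    show β.symm (lm A m (⟨x, hx⟩ * ⟨y, hy⟩) (β i)) =
      β.symm (lm A m ⟨x, hx⟩ (β (β.symm (lm A m ⟨y, hy⟩ (β i)))))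
    rw [Equiv.apply_symm_apply, map_mul]
    rfl
  · intro x hx hx1 i h
    rw [hg _ hx] at h
    have h1 : lm A m ⟨x, hx⟩ (β i) = β i := by
      have h2 : β.symm (lm A m ⟨x, hx⟩ (β i)) = i := h
      rwa [Equiv.symm_apply_eq] at h2
    have h3 : (⟨x, hx⟩ : A) * (β i).1 = (β i).1 := congrArg Prod.fst h1
    have h4 : (⟨x, hx⟩ : A) = 1 := mul_eq_right.1 h3
    exact hx1 (congrArg Subtype.val h4)
  · intro x hx hxB
    rw [hg _ hx]
    ext1 i
    show β.symm (lm A m ⟨x, hx⟩ (β i)) = f x i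
    rw [Equiv.symm_apply_eq]
    exact (hβ ⟨x, hx, hxB⟩ i).symm

end Pool.Agent.U863.CS
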