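import Pool.Agent.U863.CS.Fre
import Pool.Agent.N509.TK.Loc2

/-!
# Homomorphisms defined on the stabilizers

A compatible family of homomorphisms from the stabilizers of the vertices of a tree to a group `M`
extends, up to conjugation, to the group generated by the stabilizers.
-/

set_option autoImplicit false

namespace Pool.Agent.U863.CS

open SimpleGraph
open Pool.Agent.N24.TR (gam gam_map gam_mul gam_self gam_adj gam_eq wp wp_nil wp_cons shift)
open Pool.Agent.N509.TK (Sb Sb_conj Sb_le Sb_normal mem_Sb Tq Tv)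

section gauge

variable {G V M : Type} {T : SimpleGraph V} [Group G] [MulAction G V] [Group M] {L : Subgroup G}
  {S : Set V}

/-- the data: representatives and a compatible family -/
structure Gd (T : SimpleGraph V) (L : Subgroup G) (S : Set V) (r : V → V) (s : V → G)
    (χ : V → G → M) : Prop where
  tq : Tq T (⨆ v : V, Sb L v) S
  rS : ∀ v, r v ∈ S
  sH : ∀ v, s v ∈ ⨆ v : V, Sb L v
  eq : ∀ v, v = s v • r v
  hom : ∀ v, PH (Sb L v) (χ v)
  comp : ∀ u v, T.Adj u v → ∀ x ∈ Sb L u, x ∈ Sb L v → χ u x = χ v x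

variable {r : V → V} {s : V → G} {χ : V → G → M}

theorem Gd.ex (L : Subgroup G) (χ : V → G → M) (hχ : ∀ v, PH (Sb L v) (χ v))
    (hc : ∀ u v, T.Adj u v → ∀ x ∈ Sb L u, x ∈ Sb L v → χ u x = χ v x) {S : Set V}
    (hS : Tq T (⨆ v : V, Sb L v) S) :
    ∃ (r : V → V) (s : V → G), Gd T L S r s χ := by
  choose s hs r hr heq using hS.cover
  exact ⟨r, s, hS, hr, hs, heq, hχ, hc⟩

variable (hd : Gd T L S r s χ)

include hd

theorem Gd.inv_s (v : V) : (s v)⁻¹ • v = r v := inv_smul_eq_iff.2 (hd.eq v)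

theorem Gd.r_smul {g : G} (hg : g ∈ ⨆ v : V, Sb L v) (v : V) : r (g • v) = r v := by
  refine hd.tq.trans ((s v)⁻¹ * g⁻¹ * s (g • v)) ?_ _ (hd.rS _) _ (hd.rS _) ?_
  · exact mul_mem (mul_mem (inv_mem (hd.sH v)) (inv_mem hg)) (hd.sH _)
  · rw [mul_smul, ← hd.eq (g • v), mul_smul, inv_smul_smul, hd.inv_s]

omit hd in
/-- the cocycle -/
def mm (s : V → G) (g : G) (v : V) : G := (s (g • v))⁻¹ * g * s v

theorem Gd.mm_mem {g : G} (hg : g ∈ ⨆ v : V, Sb L v) (v : V) : mm s g v ∈ Sb L (r v) := by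
  refine mem_Sb.2 ⟨?_, Sb_le L (mul_mem (mul_mem (inv_mem (hd.sH _)) hg) (hd.sH v))⟩
  show ((s (g • v))⁻¹ * g * s v) • r v = r v
  rw [mul_smul, ← hd.eq v, mul_smul, hd.inv_s, hd.r_smul hg]

omit hd in
theorem mm_mul (g h : G) (v : V) : mm s (g * h) v = mm s g (h • v) * mm s h v := by
  unfold mm
  rw [mul_smul]
  group

/-- decompositions along an edge -/
theorem Gd.dec {u v : V} (hact : ∀ (g : G) (u v : V), T.Adj u v → T.Adj (g • u) (g • v))
    (h : T.Adj u v) : T.Adj (r u) (r v) ∧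
    ∃ k ∈ Sb L (r u), ∃ l ∈ Sb L (r v), (s u)⁻¹ * s v = k * l := by
  have h1 := hact (s u)⁻¹ _ _ h
  rw [hd.inv_s] at h1
  obtain ⟨w, hw, h3, k, hk, hku, hkw⟩ := hd.tq.max _ (hd.rS u) _ h1
  have h4 : w = r v := by
    refine hd.tq.trans ((s v)⁻¹ * s u * k) (mul_mem (mul_mem (inv_mem (hd.sH v)) (hd.sH u)) hk) w hw
      _ (hd.rS v) ?_
    rw [mul_smul, hkw, mul_smul, smul_inv_smul, hd.inv_s]
  subst h4
  refine ⟨h3, k, mem_Sb.2 ⟨hku, Sb_le L hk⟩, k⁻¹ * ((s u)⁻¹ * s v), mem_Sb.2 ⟨?_, ?_⟩, ?_⟩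
  · rw [mul_smul, mul_smul, ← hd.eq v, ← hkw, inv_smul_smul]
  · exact L.mul_mem (L.inv_mem (Sb_le L hk)) (L.mul_mem (L.inv_mem (Sb_le L (hd.sH u)))
      (Sb_le L (hd.sH v)))
  · rw [mul_inv_cancel_left]

theorem Gd.dec_unique {u v : V} (h : T.Adj (r u) (r v)) {k k' l l' : G} (hk : k ∈ Sb L (r u))
    (hk' : k' ∈ Sb L (r u)) (hl : l ∈ Sb L (r v)) (hl' : l' ∈ Sb L (r v)) (heq : k * l = k' * l') :
    χ (r u) k * χ (r v) l = χ (r u) k' * χ (r v) l' := by
  have h1 : k'⁻¹ * k = l' * l⁻¹ := by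
    rw [inv_mul_eq_iff_eq_mul, ← mul_assoc, ← heq, mul_inv_cancel_right]
  have h2 : k'⁻¹ * k ∈ Sb L (r u) := mul_mem (inv_mem hk') hk
  have h3 : k'⁻¹ * k ∈ Sb L (r v) := by
    rw [h1]
    exact mul_mem hl' (inv_mem hl)
  have h4 := hd.comp _ _ h _ h2 h3
  rw [hd.hom _ _ (inv_mem hk') _ hk, (hd.hom _).inv hk', h1, hd.hom _ _ hl' _ (inv_mem hl),
    (hd.hom _).inv hl] at h4
  rw [inv_mul_eq_iff_eq_mul] at h4
  rw [h4, mul_assoc, mul_assoc, inv_mul_cancel, mul_one]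

omit hd in
open Classical in
/-- the labels of the edges -/
noncomputable def dl (L : Subgroup G) (r : V → V) (s : V → G)
    (χ : V → G → M) (u v : V) : M :=
  if h : ∃ k ∈ Sb L (r u), ∃ l ∈ Sb L (r v), (s u)⁻¹ * s v = k * l then
    χ (r u) (Classical.choose h) *
      χ (r v) (Classical.choose (Classical.choose_spec h).2)
  else 1

theorem Gd.dl_eq {u v : V} (h : T.Adj (r u) (r v)) {k l : G} (hk : k ∈ Sb L (r u))
    (hl : l ∈ Sb L (r v)) (heq : (s u)⁻¹ * s v = k * l) : dl L r s χ u v = χ (r u) k * χ (r v) l := by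
  have hex : ∃ k ∈ Sb L (r u), ∃ l ∈ Sb L (r v), (s u)⁻¹ * s v = k * l := ⟨k, hk, l, hl, heq⟩
  rw [dl, dif_pos hex]
  exact hd.dec_unique h (Classical.choose_spec hex).1 hk
    (Classical.choose_spec (Classical.choose_spec hex).2).1 hl
    ((Classical.choose_spec (Classical.choose_spec hex).2).2.symm.trans heq)

theorem Gd.dl_inv (hact : ∀ (g : G) (u v : V), T.Adj u v → T.Adj (g • u) (g • v)) (u v : V)
    (h : T.Adj u v) : dl L r s χ u v * dl L r s χ v u = 1 := by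
  obtain ⟨h1, k, hk, l, hl, heq⟩ := hd.dec hact h
  rw [hd.dl_eq h1 hk hl heq, hd.dl_eq (k := l⁻¹) (l := k⁻¹) h1.symm (inv_mem hl) (inv_mem hk) ?_,
    (hd.hom _).inv hk, (hd.hom _).inv hl]
  · rw [mul_assoc, mul_inv_cancel_left, mul_inv_cancel]
  · rw [← mul_inv_rev, ← heq]
    group

/-- the transformation of the labels -/
theorem Gd.dl_smul (hact : ∀ (g : G) (u v : V), T.Adj u v → T.Adj (g • u) (g • v)) {g : G}
    (hg : g ∈ ⨆ v : V, Sb L v) (u v : V) (h : T.Adj u v) :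
    dl L r s χ (g • u) (g • v) =
      χ (r u) (mm s g u) * dl L r s χ u v * (χ (r v) (mm s g v))⁻¹ := by
  obtain ⟨h1, k, hk, l, hl, heq⟩ := hd.dec hact h
  have hu := hd.mm_mem hg u
  have hv := hd.mm_mem hg v
  have hru := hd.r_smul hg u
  have hrv := hd.r_smul hg v
  have h2 : (s (g • u))⁻¹ * s (g • v) = (mm s g u * k) * (l * (mm s g v)⁻¹) := by
    have h3 : k * l = (s u)⁻¹ * s v := heq.symm
    have h4 : (mm s g u * k) * (l * (mm s g v)⁻¹) = mm s g u * (k * l) * (mm s g v)⁻¹ := by group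
    rw [h4, h3]
    unfold mm
    group
  rw [hd.dl_eq (u := g • u) (v := g • v) (k := mm s g u * k) (l := l * (mm s g v)⁻¹) ?_ ?_ ?_ h2]
  · rw [hru, hrv, hd.dl_eq h1 hk hl heq, hd.hom _ _ hu _ hk, hd.hom _ _ hl _ (inv_mem hv),
      (hd.hom _).inv hv]
    simp only [mul_assoc]
  · rw [hru, hrv]
    exact h1
  · rw [hru]
    exact mul_mem hu hk
  · rw [hrv]
    exact mul_mem hl (inv_mem hv)

theorem Gd.gam_smul (hT : T.IsTree)
    (hact : ∀ (g : G) (u v : V), T.Adj u v → T.Adj (g • u) (g • v)) {g : G}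
    (hg : g ∈ ⨆ v : V, Sb L v) (u v : V) :
    gam hT (dl L r s χ) (g • u) (g • v) =
      χ (r u) (mm s g u) * gam hT (dl L r s χ) u v * (χ (r v) (mm s g v))⁻¹ := by
  obtain ⟨p⟩ := hT.connected.preconnected u v
  have h0 : gam hT (dl L r s χ) (g • u) (g • v) = wp (dl L r s χ) (p.map (shift hact g)) :=
    gam_eq hT _ (hd.dl_inv hact) (p.map (shift hact g))
  rw [gam_eq hT _ (hd.dl_inv hact) p, h0]
  clear h0
  induction p with
  | nil =>
    show (1 : M) = _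
    rw [wp_nil, mul_one, mul_inv_cancel]
  | @cons u w v h p ih =>
    rw [Walk.map_cons, wp_cons, wp_cons, ih]
    show dl L r s χ (g • u) (g • w) * _ = _
    rw [hd.dl_smul hact hg u w h]
    simp only [mul_assoc]
    rw [inv_mul_cancel_left]

/-- the homomorphism -/
theorem Gd.main (hT : T.IsTree)
    (hact : ∀ (g : G) (u v : V), T.Adj u v → T.Adj (g • u) (g • v)) :
    ∃ φ : G → M, PH (⨆ v : V, Sb L v) φ ∧
      ∀ v, ∃ c : M, ∀ x ∈ Sb L v, φ x = c * χ (r v) ((s v)⁻¹ * x * s v) * c⁻¹ := by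
  obtain ⟨o⟩ := hT.connected.nonempty
  obtain ⟨γ, hγ⟩ : ∃ γ, γ = gam hT (dl L r s χ) := ⟨_, rfl⟩
  have hγm : ∀ u v w, γ u v * γ v w = γ u w := by
    rw [hγ]
    exact gam_mul hT _ (hd.dl_inv hact)
  have hγ1 : ∀ u, γ u u = 1 := by
    rw [hγ]
    exact gam_self hT _ (hd.dl_inv hact)
  have hγs : ∀ g ∈ ⨆ v : V, Sb L v, ∀ u v, γ (g • u) (g • v) =
      χ (r u) (mm s g u) * γ u v * (χ (r v) (mm s g v))⁻¹ := by
    rw [hγ]
    exact fun g hg u v => hd.gam_smul hT hact hg u v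
  refine ⟨fun g => γ o (g • o) * χ (r o) (mm s g o), ?_, ?_⟩
  · intro g hg h hh
    show γ o ((g * h) • o) * χ (r o) (mm s (g * h) o) =
      γ o (g • o) * χ (r o) (mm s g o) * (γ o (h • o) * χ (r o) (mm s h o))
    have h1 : mm s g (h • o) ∈ Sb L (r o) := by
      have := hd.mm_mem hg (h • o)
      rwa [hd.r_smul hh] at this
    rw [mul_smul, mm_mul, hd.hom _ _ h1 _ (hd.mm_mem hh o), ← hγm o (g • o), hγs g hg,
      hd.r_smul hh]
    generalize χ (r o) (mm s g (h • o)) = a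
    generalize χ (r o) (mm s h o) = b
    generalize χ (r o) (mm s g o) = c
    generalize γ o (g • o) = d
    generalize γ o (h • o) = e
    have h2 : d * (c * e * a⁻¹) * (a * b) = d * (c * e) * (a⁻¹ * a) * b := by
      simp only [mul_assoc]
    rw [h2, inv_mul_cancel, mul_one]
    simp only [mul_assoc]
  · intro v
    refine ⟨γ o v, fun x hx => ?_⟩
    have hxH : x ∈ ⨆ v : V, Sb L v := le_iSup (Sb L) v hx
    show γ o (x • o) * χ (r o) (mm s x o) = _
    have h1 := hγs x hxH v o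
    rw [hx.1] at h1
    rw [← hγm o v (x • o), h1]
    have h2 : mm s x v = (s v)⁻¹ * x * s v := by
      unfold mm
      rw [hx.1]
    have h5 : (γ o v)⁻¹ = γ v o := by
      rw [inv_eq_iff_mul_eq_one, hγm, hγ1]
    rw [h2, h5]
    generalize χ (r v) ((s v)⁻¹ * x * s v) = a
    generalize χ (r o) (mm s x o) = b
    simp only [mul_assoc]
    rw [inv_mul_cancel, mul_one]

end gauge

section ext

variable {G V M : Type} {T : SimpleGraph V} [Group G] [MulAction G V] [Group M]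

/-- **the homomorphism given by a compatible family** -/
theorem exists_hom (hT : T.IsTree) (hact : ∀ (g : G) (u v : V), T.Adj u v → T.Adj (g • u) (g • v))
    (L : Subgroup G) [L.Normal] (χ : V → G → M) (hχ : ∀ v : V, PH (Sb L v) (χ v))
    (hc : ∀ u v : V, T.Adj u v → ∀ x ∈ Sb L u, x ∈ Sb L v → χ u x = χ v x) :
    ∃ φ : G → M, PH (⨆ v : V, Sb L v) φ ∧ ∀ v : V, ∃ (c : M) (w : V), ∃ s ∈ ⨆ v : V, Sb L v,
      ∀ x ∈ Sb L v, s⁻¹ * x * s ∈ Sb L w ∧ φ x = c * χ w (s⁻¹ * x * s) * c⁻¹ := by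
  obtain ⟨S, hS⟩ := Tv.exists (R := Sb (V := V) L) hT
  have hq := Tq.of_Sb hT hact L hS
  obtain ⟨r, s, hd⟩ := Gd.ex L χ hχ hc hq
  obtain ⟨φ, hφ, hφv⟩ := hd.main hT hact
  refine ⟨φ, hφ, fun v => ?_⟩
  obtain ⟨c, hcx⟩ := hφv v
  refine ⟨c, r v, s v, hd.sH v, fun x hx => ⟨?_, hcx x hx⟩⟩
  have h1 := Sb_conj L (s v)⁻¹ v hx
  rwa [hd.inv_s, inv_inv] at h1

end ext

end Pool.Agent.U863.CS
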