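import Pool.Agent.U863.CS.Step

/-!
# Reduction to finitely generated groups
-/

set_option autoImplicit false

namespace Pool.Agent.U863.CS

open SimpleGraph
open Pool.Agent.Y110.FJ
open Pool.Agent.N509.TK (Sb Sb_conj Sb_le Sb_normal mem_Sb tg tg_smul tg_reach tg_walk)
open Pool.Agent.R941.FJ (C_equiv C_le)

variable {C : ∀ (G : Type) [Group G], Prop} {G V : Type} {T : SimpleGraph V} [Group G]
  [MulAction G V]

/-- **commensurable stabilizers** -/
theorem main (hC : ClosedE C) (hM : ∀ (G : Type) [Group G], derivedSeries G 2 = ⊥ → C G)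
    (hGL : ∀ m : ℕ, C (GL (Fin m) ℚ)) (hT : T.IsTree)
    (hact : ∀ (g : G) (u v : V), T.Adj u v → T.Adj (g • u) (g • v))
    (D : Subgroup G) [hDn : D.Normal] (hQ : C (G ⧸ D)) (hcom : Com V D)
    (hPR : ∀ v : V, ∃ n, PR n (Sb D v)) : C G := by
  classical
  obtain ⟨o⟩ := hT.connected.nonempty
  refine Pool.Agent.Y430.SS.of_directed hC.base G (Finset G) (fun i j => ?_)
    (fun s => Subgroup.closure (s : Set G))
    (fun s t h => Subgroup.closure_mono (by exact_mod_cast h))
    (fun g => ⟨{g}, Subgroup.subset_closure (by simp)⟩) (fun S => ?_)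
  · exact ⟨i ∪ j, Finset.subset_union_left, Finset.subset_union_right⟩
  obtain ⟨H, hH⟩ : ∃ H : Subgroup G, H = Subgroup.closure (S : Set G) := ⟨_, rfl⟩
  show C (Subgroup.closure (S : Set G))
  rw [← hH]
  let w : ∀ g : G, T.Walk o (g • o) := fun g => (hT.connected.preconnected o (g • o)).some
  obtain ⟨Φ, hΦ⟩ : ∃ Φ : Finset (V × V),
      Φ = S.biUnion fun s => ((w s).darts.map fun d => d.toProd).toFinset := ⟨_, rfl⟩
  obtain ⟨T', hT'⟩ : ∃ T' : SimpleGraph V, T' = tg T H (Φ : Set (V × V)) := ⟨_, rfl⟩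
  have hle : T' ≤ T := by
    rw [hT']
    intro u v h
    exact h.1
  have hreach : ∀ g ∈ H, T'.Reachable o (g • o) := by
    intro g hg
    rw [hH] at hg
    induction hg using Subgroup.closure_induction with
    | mem s hs =>
      rw [hT']
      refine tg_walk H _ (w s) fun d hd => ?_
      rw [hΦ]
      simp only [Finset.coe_biUnion, Set.mem_iUnion, Finset.mem_coe, List.mem_toFinset, List.mem_map]
      exact ⟨s, hs, d, hd, rfl⟩
    | one =>
      rw [one_smul]
    | mul a b ha hb iha ihb =>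
      rw [mul_smul]
      refine iha.trans ?_
      rw [hT'] at ihb ⊢
      exact tg_reach hact H _ (hH ▸ ha) ihb
    | inv a ha iha =>
      have h1 : T'.Reachable (a⁻¹ • o) (a⁻¹ • a • o) := by
        rw [hT'] at iha ⊢
        exact tg_reach hact H _ (H.inv_mem (hH ▸ ha)) iha
      rw [inv_smul_smul] at h1
      exact h1.symm
  have hTs : ∀ a ∈ H, ∀ x y : V, T'.Adj x y → T'.Adj (a • x) (a • y) := by
    intro a ha x y h
    rw [hT'] at h ⊢
    exact tg_smul hact H _ ha h
  have hTa : ∀ x y : V, T'.Adj x y → ∃ h ∈ H, (h • x, h • y) ∈ Φ ∨ (h • y, h • x) ∈ Φ := by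
    intro x y h
    rw [hT'] at h
    exact h.2
  obtain ⟨c, hc⟩ : ∃ c : T'.ConnectedComponent, c = T'.connectedComponentMk o := ⟨_, rfl⟩
  have hcm : ∀ x, x ∈ c.supp ↔ T'.Reachable o x := by
    intro x
    rw [hc, ConnectedComponent.mem_supp_iff, ConnectedComponent.eq]
    exact ⟨fun h => h.symm, fun h => h.symm⟩
  have hcs : ∀ (h : H) (x : V), x ∈ c.supp → (h : G) • x ∈ c.supp := by
    intro h x hx
    rw [hcm] at hx ⊢
    refine (hreach h h.2).trans ?_
    rw [hT'] at hx ⊢
    exact tg_reach hact H _ h.2 hx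
  let _ : MulAction H c.supp :=
    { smul := fun h x => ⟨(h : G) • (x : V), hcs h x x.2⟩
      one_smul := fun x => Subtype.ext (one_smul G (x : V))
      mul_smul := fun h k x => Subtype.ext (mul_smul (h : G) (k : G) (x : V)) }
  have hsm : ∀ (h : H) (x : c.supp), ((h • x : c.supp) : V) = (h : G) • (x : V) := fun _ _ => rfl
  have htree := (hT.isAcyclic.anti hle).isTree_connectedComponent c
  -- the orbits
  obtain ⟨Ψ, hΨ⟩ : ∃ Ψ : Finset c.supp, ∀ x : c.supp, ∃ h : H, h • x ∈ Ψ := by
    refine ⟨(insert o (Φ.image Prod.fst ∪ Φ.image Prod.snd)).subtype (· ∈ c.supp), fun x => ?_⟩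
    by_cases hx : (x : V) = o
    · refine ⟨1, ?_⟩
      rw [Finset.mem_subtype, one_smul, hx]
      exact Finset.mem_insert_self _ _
    · have h1 := (hcm x).1 x.2
      obtain ⟨p⟩ := h1.symm
      cases p with
      | nil => exact absurd rfl hx
      | @cons _ y _ hadj p =>
        obtain ⟨h, hh, h2⟩ := hTa _ _ hadj
        refine ⟨⟨h, hh⟩, ?_⟩
        rw [Finset.mem_subtype]
        refine Finset.mem_insert_of_mem ?_
        rw [Finset.mem_union]
        rcases h2 with h2 | h2
        · exact Or.inl (Finset.mem_image_of_mem Prod.fst h2)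
        · exact Or.inr (Finset.mem_image_of_mem Prod.snd h2)
  have hSb : ∀ x : c.supp, Sb (D.subgroupOf H) x = (Sb D (x : V)).subgroupOf H := by
    intro x
    ext h
    constructor
    · rintro ⟨h1, h2⟩
      exact ⟨congrArg Subtype.val h1, h2⟩
    · rintro ⟨h1, h2⟩
      exact ⟨Subtype.ext h1, h2⟩
  have hcH : Com c.supp (D.subgroupOf H) := by
    intro x y
    rw [hSb, hSb]
    have h1 : ((Sb D (x : V)).subgroupOf H).relIndex ((Sb D (y : V)).subgroupOf H) =
        (Sb D (x : V)).relIndex (((Sb D (y : V)).subgroupOf H).map H.subtype) :=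
      Subgroup.relIndex_comap _ _ _
    rw [h1]
    refine mt (Subgroup.relIndex_eq_zero_of_le_right ?_) (hcom (x : V) (y : V))
    rintro _ ⟨z, hz, rfl⟩
    exact hz
  obtain ⟨n, hn⟩ := hPR o
  -- the same length for all vertices
  have hPRn : ∀ v : V, PR n (Sb D v) := by
    intro v
    have h1 : PR n ((Sb D o).subgroupOf (Sb D v)) := by
      refine hn.inj _ (((Sb D v).subtype.comp ((Sb D o).subgroupOf (Sb D v)).subtype).codRestrict
        (Sb D o) (fun x => x.2)) ?_
      intro x y hxy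
      exact Subtype.ext (Subtype.ext (congrArg (fun z : Sb D o => (z : G)) hxy))
    have h2 : ((Sb D o).subgroupOf (Sb D v)).FiniteIndex := ⟨hcom o v⟩
    have h3 := ((Sb D o).subgroupOf (Sb D v)).normalCore_le
    have h4 : ((Sb D o).subgroupOf (Sb D v)).normalCore.FiniteIndex := inferInstance
    exact PR.fin n _ _ inferInstance h4 (h1.of_le h3)
  have hQH : C (H ⧸ D.subgroupOf H) :=
    C_of_hom hC.base ((QuotientGroup.mk' D).comp H.subtype) hQ _ (fun x =>
      ⟨fun hx => (QuotientGroup.eq_one_iff (x : G)).2 hx,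
        fun hx => (QuotientGroup.eq_one_iff (x : G)).1 hx⟩)
  refine coc (G := H) (V := c.supp) (T := c.toSimpleGraph) hC hM hGL htree ?_ Ψ hΨ n
    (D.subgroupOf H) hQH hcH fun x => ?_
  · intro h x y hxy
    have h1 : T'.Adj (x : V) (y : V) := hxy
    exact hTs h h.2 _ _ h1
  · rw [hSb]
    refine (hPRn x).inj _ ((H.subtype.comp ((Sb D (x : V)).subgroupOf H).subtype).codRestrict
      (Sb D (x : V)) (fun y => y.2)) ?_
    intro y z hyz
    exact Subtype.ext (Subtype.ext (congrArg (fun z : Sb D (x : V) => (z : G)) hyz))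

end Pool.Agent.U863.CS
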