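import Mathlib

/-!
# Groups with a finite series with factors finite or of rank one
-/

set_option autoImplicit false

namespace Pool.Agent.U863.CS

/-- `G` has a finite series with finite factors and at most `n` factors which embed in `ℚ` -/
inductive PR : ℕ → ∀ (G : Type) [Group G], Prop
  | triv (G : Type) [Group G] (h : Subsingleton G) : PR 0 G
  | fin (n : ℕ) (G : Type) [Group G] (N : Subgroup G) (hN : N.Normal) (hf : N.FiniteIndex)
      (h : PR n N) : PR n G
  | rk (n : ℕ) (G : Type) [Group G] (χ : G →* Multiplicative ℚ) (h : PR n χ.ker) : PR (n + 1) G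

theorem PR.inj {n : ℕ} {G : Type} [Group G] (h : PR n G) :
    ∀ (H : Type) [Group H] (f : H →* G), Function.Injective f → PR n H := by
  induction h with
  | triv G h =>
    intro H _ f hf
    exact PR.triv H ⟨fun x y => hf (Subsingleton.elim _ _)⟩
  | fin n G N hN hfi h ih =>
    intro H _ f hf
    refine PR.fin n H (N.comap f) inferInstance ⟨?_⟩ (ih _ ((f.comp (N.comap f).subtype).codRestrict N
      (fun x => x.2)) ?_)
    · rw [Subgroup.index_comap]
      intro h0
      have h1 := Subgroup.relIndex_dvd_index_of_normal N f.range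
      rw [h0, zero_dvd_iff] at h1
      exact hfi.index_ne_zero h1
    · intro x y hxy
      exact Subtype.ext (hf (congrArg Subtype.val hxy))
  | rk n G χ h ih =>
    intro H _ f hf
    refine PR.rk n H (χ.comp f) (ih _ ((f.comp (χ.comp f).ker.subtype).codRestrict χ.ker
      (fun x => x.2)) ?_)
    intro x y hxy
    exact Subtype.ext (hf (congrArg Subtype.val hxy))

theorem PR.of_le {n : ℕ} {G : Type} [Group G] {A B : Subgroup G} (h : PR n B) (hAB : A ≤ B) : PR n A :=
  h.inj _ (Subgroup.inclusion hAB) (Subgroup.inclusion_injective hAB)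

theorem PR.finite {n : ℕ} {G : Type} [Group G] (h : PR n G) : n = 0 → Finite G := by
  induction h with
  | triv G h => exact fun _ => inferInstance
  | fin n G N hN hfi h ih =>
    intro h0
    have h1 := ih h0
    have h2 : Finite (G ⧸ N) := Subgroup.finite_quotient_of_finiteIndex
    exact Finite.of_equiv _ (Subgroup.groupEquivQuotientProdSubgroup (s := N)).symm
  | rk n G χ h ih => exact fun h0 => absurd h0 (Nat.succ_ne_zero n)

theorem char_fin {G : Type} [Group G] (N : Subgroup G) (hf : N.FiniteIndex)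
    (χ : G →* Multiplicative ℚ) (h : ∀ x ∈ N, χ x = 1) (x : G) : χ x = 1 := by
  obtain ⟨n, hn, -, hx⟩ := Subgroup.exists_pow_mem_of_index_ne_zero hf.index_ne_zero x
  have h1 := h _ hx
  rw [map_pow] at h1
  have h2 : n • (χ x).toAdd = 0 := h1
  rw [nsmul_eq_mul, mul_eq_zero] at h2
  rcases h2 with h2 | h2
  · exact absurd (Nat.cast_eq_zero.1 h2) hn.ne'
  · exact h2

theorem char_rk {G : Type} [Group G] (χ0 : G →* Multiplicative ℚ) {a x : G} (ha : χ0 a ≠ 1) :
    ∃ (i : ℕ) (j : ℤ), 0 < i ∧ ∀ m : ℕ, χ0 (x ^ (m * i) * (a ^ m) ^ (-j)) = 1 := by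
  have ha' : (χ0 a).toAdd ≠ 0 := ha
  obtain ⟨r, hr⟩ : ∃ r : ℚ, r = (χ0 x).toAdd / (χ0 a).toAdd := ⟨_, rfl⟩
  have h1 : (χ0 x).toAdd = r * (χ0 a).toAdd := by
    rw [hr, div_mul_cancel₀ _ ha']
  refine ⟨r.den, r.num, r.den_pos, fun m => ?_⟩
  have h2 : (χ0 (x ^ (m * r.den) * (a ^ m) ^ (-r.num))).toAdd =
      ((m * r.den : ℕ) : ℚ) * (χ0 x).toAdd + (((-r.num : ℤ)) : ℚ) * ((m : ℚ) * (χ0 a).toAdd) := by
    rw [map_mul, map_pow, map_zpow, map_pow, toAdd_mul, toAdd_pow, toAdd_zpow, toAdd_pow,
      nsmul_eq_mul, zsmul_eq_mul, nsmul_eq_mul]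
  have h3 : (r.den : ℚ) * r = r.num := by
    rw [mul_comm]
    exact Rat.mul_den_eq_num r
  have h4 : (χ0 (x ^ (m * r.den) * (a ^ m) ^ (-r.num))).toAdd = 0 := by
    rw [h2, h1]
    push_cast
    have h5 : (m : ℚ) * r.den * (r * (χ0 a).toAdd) = m * (r.den * r) * (χ0 a).toAdd := by ring
    rw [h5, h3]
    ring
  exact h4

/-- the kernel of a nonzero character -/
theorem PR.ker {n : ℕ} {G : Type} [Group G] (h : PR n G) :
    ∀ χ : G →* Multiplicative ℚ, (∃ x, χ x ≠ 1) → ∃ m, n = m + 1 ∧ PR m χ.ker := by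
  induction h with
  | triv G h =>
    rintro χ ⟨x, hx⟩
    rw [Subsingleton.elim x 1, map_one] at hx
    exact absurd rfl hx
  | fin n G N hN hfi h ih =>
    rintro χ ⟨x, hx⟩
    have h1 : ∃ y : N, χ.comp N.subtype y ≠ 1 := by
      by_contra hcon
      push Not at hcon
      exact hx (char_fin N hfi χ (fun y hy => hcon ⟨y, hy⟩) x)
    obtain ⟨m, hm, hk⟩ := ih (χ.comp N.subtype) h1
    refine ⟨m, hm, PR.fin m χ.ker (N.subgroupOf χ.ker) inferInstance inferInstance ?_⟩
    refine hk.inj _ ((((χ.ker).subtype.comp (N.subgroupOf χ.ker).subtype).codRestrict N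
      (fun x => x.2)).codRestrict (χ.comp N.subtype).ker (fun x => x.1.2)) ?_
    intro x y hxy
    exact Subtype.ext (Subtype.ext (congrArg (fun z => ((z : N) : G)) (congrArg Subtype.val hxy)))
  | rk n G χ0 h ih =>
    rintro χ ⟨y, hy⟩
    by_cases h1 : ∃ x : χ0.ker, χ.comp χ0.ker.subtype x ≠ 1
    · obtain ⟨m, hm, hk⟩ := ih (χ.comp χ0.ker.subtype) h1
      refine ⟨n, rfl, ?_⟩
      rw [hm]
      refine PR.rk m χ.ker (χ0.comp χ.ker.subtype) ?_
      refine hk.inj _ ((((χ.ker).subtype.comp (χ0.comp χ.ker.subtype).ker.subtype).codRestrict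
        χ0.ker (fun x => x.2)).codRestrict (χ.comp χ0.ker.subtype).ker (fun x => x.1.2)) ?_
      intro x y hxy
      exact Subtype.ext (Subtype.ext (congrArg (fun z => ((z : χ0.ker) : G))
        (congrArg Subtype.val hxy)))
    · push Not at h1
      refine ⟨n, rfl, h.of_le ?_⟩
      intro x hx
      by_contra hcon
      have h2 : χ0 x ≠ 1 := hcon
      obtain ⟨i, j, hi, hij⟩ := char_rk χ0 (a := x) (x := y) h2
      have h3 := h1 ⟨_, hij 1⟩
      have h4 : χ (y ^ (1 * i) * (x ^ 1) ^ (-j)) = 1 := h3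
      have hx' : χ x = 1 := hx
      rw [map_mul, map_pow, map_zpow, map_pow, hx', one_pow, one_zpow, mul_one, one_mul] at h4
      have h5 : i • (χ y).toAdd = 0 := h4
      rw [nsmul_eq_mul, mul_eq_zero] at h5
      rcases h5 with h5 | h5
      · exact absurd (Nat.cast_eq_zero.1 h5) hi.ne'
      · exact hy h5

/-- infinite groups have characters on a subgroup of finite index -/
theorem PR.exists_char {n : ℕ} {G : Type} [Group G] (h : PR n G) : Infinite G →
    ∃ B : Subgroup G, B.FiniteIndex ∧ ∃ χ : B →* Multiplicative ℚ, ∃ x, χ x ≠ 1 := by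
  induction h with
  | triv G h =>
    intro h1
    exact absurd (inferInstance : Finite G) (not_finite_iff_infinite.2 h1)
  | fin n G N hN hfi h ih =>
    intro h1
    have h2 : Infinite N := by
      by_contra hcon
      rw [not_infinite_iff_finite] at hcon
      have h3 : Finite (G ⧸ N) := Subgroup.finite_quotient_of_finiteIndex
      exact not_finite_iff_infinite.2 h1
        (Finite.of_equiv _ (Subgroup.groupEquivQuotientProdSubgroup (s := N)).symm)
    obtain ⟨B, hB, χ, x, hx⟩ := ih h2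
    refine ⟨B.map N.subtype, ⟨?_⟩, χ.comp (B.equivMapOfInjective N.subtype
      N.subtype_injective).symm.toMonoidHom, B.equivMapOfInjective N.subtype N.subtype_injective x, ?_⟩
    · rw [Subgroup.index_map_subtype]
      exact mul_ne_zero hB.index_ne_zero hfi.index_ne_zero
    · show χ ((B.equivMapOfInjective N.subtype N.subtype_injective).symm
        (B.equivMapOfInjective N.subtype N.subtype_injective x)) ≠ 1
      rwa [MulEquiv.symm_apply_apply]
  | rk n G χ0 h ih =>
    intro h1
    by_cases h2 : ∃ x, χ0 x ≠ 1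
    · obtain ⟨x, hx⟩ := h2
      exact ⟨⊤, inferInstance, χ0.comp (Subgroup.subtype ⊤), ⟨x, trivial⟩, hx⟩
    · push Not at h2
      have h3 : χ0.ker = ⊤ := by
        rw [eq_top_iff]
        exact fun x _ => h2 x
      have h4 : Infinite χ0.ker := by
        rw [h3]
        exact Infinite.of_injective (fun x : G => (⟨x, trivial⟩ : (⊤ : Subgroup G)))
          (fun x y h => congrArg Subtype.val h)
      obtain ⟨B, hB, χ, x, hx⟩ := ih h4
      refine ⟨B.map χ0.ker.subtype, ⟨?_⟩, χ.comp (B.equivMapOfInjective χ0.ker.subtype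
        χ0.ker.subtype_injective).symm.toMonoidHom,
        B.equivMapOfInjective χ0.ker.subtype χ0.ker.subtype_injective x, ?_⟩
      · have h5 : χ0.ker.index = 1 := by rw [h3, Subgroup.index_top]
        rw [Subgroup.index_map_subtype, h5, mul_one]
        exact hB.index_ne_zero
      · show χ ((B.equivMapOfInjective χ0.ker.subtype χ0.ker.subtype_injective).symm
          (B.equivMapOfInjective χ0.ker.subtype χ0.ker.subtype_injective x)) ≠ 1
        rwa [MulEquiv.symm_apply_apply]

/-- `f` is homogeneous and additive on a subgroup of finite index -/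
def QC {A : Type} [Group A] (f : A → ℚ) : Prop :=
  (∃ B : Subgroup A, B.FiniteIndex ∧ ∀ x ∈ B, ∀ y ∈ B, f (x * y) = f x + f y) ∧
    ∀ (x : A) (n : ℕ), f (x ^ n) = n * f x

theorem QC.comp {A : Type} [Group A] {f : A → ℚ} (h : QC f) (N : Subgroup A) :
    QC (fun x : N => f x) := by
  obtain ⟨⟨B, hB, hBf⟩, h2⟩ := h
  exact ⟨⟨B.subgroupOf N, inferInstance, fun x hx y hy => hBf x hx y hy⟩, fun x n => h2 x n⟩

/-- a quasi-character is determined by finitely many values -/
theorem PR.det {n : ℕ} {G : Type} [Group G] (h : PR n G) :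
    ∃ S : Finset G, ∀ f : G → ℚ, QC f → (∀ s ∈ S, f s = 0) → ∀ x, f x = 0 := by
  classical
  induction h with
  | triv G h =>
    refine ⟨∅, fun f hf _ x => ?_⟩
    have h1 := hf.2 x 0
    rw [Subsingleton.elim (x ^ 0) x] at h1
    rw [h1]
    simp
  | fin n G N hN hfi h ih =>
    obtain ⟨S, hS⟩ := ih
    refine ⟨S.image Subtype.val, fun f hf h0 x => ?_⟩
    have h1 : ∀ y : N, f y = 0 := hS _ (hf.comp N) fun s hs =>
      h0 _ (Finset.mem_image_of_mem _ hs)
    obtain ⟨m, hm, -, hx⟩ := Subgroup.exists_pow_mem_of_index_ne_zero hfi.index_ne_zero x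
    have h2 := h1 ⟨_, hx⟩
    have h3 : f (x ^ m) = 0 := h2
    rw [hf.2, mul_eq_zero] at h3
    exact h3.resolve_left (Nat.cast_ne_zero.2 hm.ne')
  | rk n G χ0 h ih =>
    obtain ⟨S, hS⟩ := ih
    by_cases ha : ∃ a, χ0 a ≠ 1
    · obtain ⟨a, ha⟩ := ha
      refine ⟨insert a (S.image Subtype.val), fun f hf h0 x => ?_⟩
      have h1 : ∀ y : χ0.ker, f y = 0 := hS _ (hf.comp χ0.ker) fun s hs =>
        h0 _ (Finset.mem_insert_of_mem (Finset.mem_image_of_mem _ hs))
      have h2 : f a = 0 := h0 _ (Finset.mem_insert_self _ _)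
      obtain ⟨⟨B, hB, hBf⟩, hh⟩ := hf
      obtain ⟨i, j, hi, hij⟩ := char_rk χ0 (a := a) (x := x) ha
      obtain ⟨m1, hm1, -, hx⟩ := Subgroup.exists_pow_mem_of_index_ne_zero hB.index_ne_zero x
      obtain ⟨m2, hm2, -, ha'⟩ := Subgroup.exists_pow_mem_of_index_ne_zero hB.index_ne_zero a
      have hxB : x ^ (m1 * m2 * i) ∈ B := by
        have h3 : x ^ (m1 * m2 * i) = (x ^ m1) ^ (m2 * i) := by rw [← pow_mul, mul_assoc]
        rw [h3]
        exact pow_mem hx _
      have haB : a ^ (m1 * m2) ∈ B := by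
        rw [mul_comm m1 m2, pow_mul]
        exact pow_mem ha' _
      have h3 := h1 ⟨_, hij (m1 * m2)⟩
      have h4 : f (x ^ (m1 * m2 * i) * (a ^ (m1 * m2)) ^ (-j)) = 0 := h3
      rw [hBf _ hxB _ (zpow_mem haB _)] at h4
      have hf1 : f 1 = 0 := by
        have := hh 1 0
        rwa [pow_zero, Nat.cast_zero, zero_mul] at this
      have hfw : f (a ^ (m1 * m2)) = 0 := by rw [hh, h2, mul_zero]
      have hinv : ∀ b ∈ B, f b⁻¹ = - f b := by
        intro b hb
        have h5 := hBf b hb b⁻¹ (inv_mem hb)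
        rw [mul_inv_cancel, hf1] at h5
        linarith
      have hz : ∀ k : ℤ, f ((a ^ (m1 * m2)) ^ k) = 0 := by
        intro k
        rcases Int.eq_nat_or_neg k with ⟨l, rfl | rfl⟩
        · rw [zpow_natCast, hh, hfw, mul_zero]
        · rw [zpow_neg, hinv _ (zpow_mem haB _), zpow_natCast, hh, hfw, mul_zero, neg_zero]
      rw [hz, add_zero, hh, mul_eq_zero] at h4
      exact h4.resolve_left (Nat.cast_ne_zero.2 (by positivity))
    · push Not at ha
      refine ⟨S.image Subtype.val, fun f hf h0 x => ?_⟩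
      exact hS _ (hf.comp χ0.ker) (fun s hs => h0 _ (Finset.mem_image_of_mem _ hs)) ⟨x, ha x⟩

/-- **transfer**: an invariant quasi-character is a homomorphism -/
theorem QC.add {A : Type} [Group A] {f : A → ℚ} (hf : QC f) (hinv : ∀ k x : A, f (k⁻¹ * x * k) = f x)
    (x y : A) : f (x * y) = f x + f y := by
  classical
  obtain ⟨⟨B, hB, hBf⟩, hh⟩ := hf
  have hf1 : f 1 = 0 := by
    have := hh 1 0
    rwa [pow_zero, Nat.cast_zero, zero_mul] at this
  let ϕ : B →* Multiplicative ℚ :=
    { toFun := fun b => Multiplicative.ofAdd (f b)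
      map_one' := by
        show Multiplicative.ofAdd (f 1) = 1
        rw [hf1]
        rfl
      map_mul' := fun b c => by
        show Multiplicative.ofAdd (f (b * c)) = _
        rw [hBf b b.2 c c.2]
        rfl }
  have key : ∀ g : A, (MonoidHom.transfer ϕ g).toAdd = B.index * f g := by
    intro g
    let _ := B.fintypeQuotientOfFiniteIndex
    rw [MonoidHom.transfer_eq_prod_quotient_orbitRel_zpowers_quot, toAdd_prod,
      Subgroup.index_eq_sum_minimalPeriod B g, Nat.cast_sum, Finset.sum_mul]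
    refine Finset.sum_congr rfl fun q _ => ?_
    show f (q.out.out⁻¹ * g ^ Function.minimalPeriod (g • ·) q.out * q.out.out) = _
    rw [hinv, hh]
  have h1 : (MonoidHom.transfer ϕ (x * y)).toAdd =
      (MonoidHom.transfer ϕ x).toAdd + (MonoidHom.transfer ϕ y).toAdd := by
    rw [map_mul]
    rfl
  rw [key, key, key, ← mul_add] at h1
  exact mul_left_cancel₀ (Nat.cast_ne_zero.2 hB.index_ne_zero) h1

end Pool.Agent.U863.CS
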