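import Pool.Agent.U863.CS.Pr
import Pool.Agent.N509.TK.Hol

/-!
# Stable characters of the stabilizers

`W V D` is the space of the functions on `G` which are homogeneous, vanish outside the roots of the
elements of the stabilizers in `D`, and are additive on subgroups of finite index of the stabilizers.
-/

set_option autoImplicit false

namespace Pool.Agent.U863.CS

open Pool.Agent.N509.TK (Sb Sb_conj Sb_le Sb_normal mem_Sb)

variable {G V : Type} [Group G] [MulAction G V]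

/-- the stabilizers in `D` are commensurable -/
def Com (V : Type) {G : Type} [Group G] [MulAction G V] (D : Subgroup G) : Prop :=
  ∀ u v : V, (Sb D u).relIndex (Sb D v) ≠ 0

/-- the stable characters -/
def W (V : Type) {G : Type} [Group G] [MulAction G V] (D : Subgroup G) : Submodule ℚ (G → ℚ) where
  carrier := {f | (∀ v : V, ∃ B : Subgroup G, B ≤ Sb D v ∧ B.relIndex (Sb D v) ≠ 0 ∧
      ∀ x ∈ B, ∀ y ∈ B, f (x * y) = f x + f y) ∧
    (∀ (x : G) (n : ℕ), f (x ^ n) = n * f x) ∧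
    ∀ x : G, (∀ (v : V) (n : ℕ), 0 < n → x ^ n ∉ Sb D v) → f x = 0}
  zero_mem' := by
    refine ⟨fun v => ⟨Sb D v, le_refl _, ?_, fun _ _ _ _ => ?_⟩, fun _ _ => ?_, fun _ _ => rfl⟩
    · rw [Subgroup.relIndex_self]
      exact one_ne_zero
    · show (0 : ℚ) = 0 + 0
      rw [add_zero]
    · show (0 : ℚ) = _ * 0
      rw [mul_zero]
  add_mem' := by
    rintro f g ⟨hf1, hf2, hf3⟩ ⟨hg1, hg2, hg3⟩
    refine ⟨fun v => ?_, fun x n => ?_, fun x hx => ?_⟩
    · obtain ⟨B, hBD, hB, hBf⟩ := hf1 v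
      obtain ⟨B', -, hB', hBg⟩ := hg1 v
      refine ⟨B ⊓ B', inf_le_left.trans hBD, Subgroup.relIndex_inf_ne_zero hB hB', ?_⟩
      intro x hx y hy
      show f (x * y) + g (x * y) = f x + g x + (f y + g y)
      rw [hBf x hx.1 y hy.1, hBg x hx.2 y hy.2]
      ring
    · show f (x ^ n) + g (x ^ n) = n * (f x + g x)
      rw [hf2, hg2, mul_add]
    · show f x + g x = 0
      rw [hf3 x hx, hg3 x hx, add_zero]
  smul_mem' := by
    rintro c f ⟨hf1, hf2, hf3⟩
    refine ⟨fun v => ?_, fun x n => ?_, fun x hx => ?_⟩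
    · obtain ⟨B, hBD, hB, hBf⟩ := hf1 v
      refine ⟨B, hBD, hB, fun x hx y hy => ?_⟩
      show c * f (x * y) = c * f x + c * f y
      rw [hBf x hx y hy, mul_add]
    · show c * f (x ^ n) = n * (c * f x)
      rw [hf2]
      ring
    · show c * f x = 0
      rw [hf3 x hx, mul_zero]

variable {D : Subgroup G}

theorem W.one {f : G → ℚ} (hf : f ∈ W V D) : f 1 = 0 := by
  have := hf.2.1 1 0
  rwa [pow_zero, Nat.cast_zero, zero_mul] at this

/-- the restriction to a subgroup of a stabilizer -/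
theorem W.qc {f : G → ℚ} (hf : f ∈ W V D) (v : V) {A : Subgroup G} (hA : A ≤ Sb D v) :
    QC (fun x : A => f x) := by
  obtain ⟨B, hBD, hB, hBf⟩ := hf.1 v
  refine ⟨⟨B.subgroupOf A, ⟨?_⟩, fun x hx y hy => hBf x hx y hy⟩, fun x n => hf.2.1 x n⟩
  exact mt (Subgroup.relIndex_eq_zero_of_le_right hA) hB

/-- a stable character which vanishes on a subgroup of finite index of a stabilizer -/
theorem W.zero (hcom : Com V D) {f : G → ℚ} (hf : f ∈ W V D) (v : V) (B : Subgroup G)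
    (hB : B.relIndex (Sb D v) ≠ 0) (h0 : ∀ x ∈ B, x ∈ Sb D v → f x = 0) : f = 0 := by
  funext x
  show f x = 0
  by_cases h : ∃ (u : V) (n : ℕ), 0 < n ∧ x ^ n ∈ Sb D u
  · obtain ⟨u, n, hn, hx⟩ := h
    have h1 : B.relIndex (Sb D u) ≠ 0 := Subgroup.relIndex_ne_zero_trans hB (hcom v u)
    have h2 : (B ⊓ Sb D v).relIndex (Sb D u) ≠ 0 := Subgroup.relIndex_inf_ne_zero h1 (hcom v u)
    obtain ⟨m, hm, -, hx2⟩ := Subgroup.exists_pow_mem_of_relIndex_ne_zero h2 hx
    have h3 := h0 _ hx2.1.1 hx2.1.2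
    rw [hf.2.1, hf.2.1, mul_eq_zero, mul_eq_zero] at h3
    rcases h3 with h3 | h3 | h3
    · exact absurd (Nat.cast_eq_zero.1 h3) hm.ne'
    · exact absurd (Nat.cast_eq_zero.1 h3) hn.ne'
    · exact h3
  · push Not at h
    exact hf.2.2 x h

theorem Sb_map [D.Normal] (g : G) (v : V) :
    (Sb D v).map (MulAut.conj g).toMonoidHom = Sb D (g • v) := by
  ext x
  constructor
  · rintro ⟨y, hy, rfl⟩
    exact Sb_conj D g v hy
  · intro hx
    have h1 := Sb_conj D g⁻¹ _ hx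
    rw [inv_smul_smul, inv_inv] at h1
    refine ⟨g⁻¹ * x * g, h1, ?_⟩
    show g * (g⁻¹ * x * g) * g⁻¹ = x
    group

/-- the action on the stable characters -/
theorem W.conj [D.Normal] {f : G → ℚ} (hf : f ∈ W V D) (g : G) :
    (fun x => f (g⁻¹ * x * g)) ∈ W V D := by
  have hp : ∀ (x : G) (n : ℕ), g⁻¹ * x ^ n * g = (g⁻¹ * x * g) ^ n := by
    intro x n
    have := conj_pow (a := g⁻¹) (b := x) (i := n)
    rw [inv_inv] at this
    exact this.symm
  refine ⟨fun v => ?_, fun x n => ?_, fun x hx => ?_⟩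
  · obtain ⟨B, hBD, hB, hBf⟩ := hf.1 (g⁻¹ • v)
    refine ⟨B.comap (MulAut.conj g⁻¹).toMonoidHom, ?_, ?_, ?_⟩
    · intro x hx
      have h1 := hBD hx
      have h2 := Sb_conj D g _ h1
      rw [smul_inv_smul] at h2
      have h3 : g * ((MulAut.conj g⁻¹).toMonoidHom x) * g⁻¹ = x := by
        show g * (g⁻¹ * x * g⁻¹⁻¹) * g⁻¹ = x
        group
      rwa [h3] at h2
    · rw [Subgroup.relIndex_comap, Sb_map]
      exact hB
    · intro x hx y hy
      have hx' : g⁻¹ * x * g ∈ B := by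
        have h1 : g⁻¹ * x * g⁻¹⁻¹ ∈ B := hx
        rwa [inv_inv] at h1
      have hy' : g⁻¹ * y * g ∈ B := by
        have h1 : g⁻¹ * y * g⁻¹⁻¹ ∈ B := hy
        rwa [inv_inv] at h1
      have h1 : g⁻¹ * (x * y) * g = (g⁻¹ * x * g) * (g⁻¹ * y * g) := by group
      show f (g⁻¹ * (x * y) * g) = f (g⁻¹ * x * g) + f (g⁻¹ * y * g)
      rw [h1, hBf _ hx' _ hy']
  · show f (g⁻¹ * x ^ n * g) = n * f (g⁻¹ * x * g)
    rw [hp, hf.2.1]
  · refine hf.2.2 _ fun v n hn h => hx (g • v) n hn ?_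
    rw [← hp] at h
    have h2 := Sb_conj D g v h
    have h3 : g * (g⁻¹ * x ^ n * g) * g⁻¹ = x ^ n := by group
    rwa [h3] at h2

/-- the representation -/
def rep (V : Type) {G : Type} [Group G] [MulAction G V] (D : Subgroup G) [D.Normal] :
    G →* Module.End ℚ (W V D) where
  toFun g :=
    { toFun := fun f => ⟨fun x => f.1 (g⁻¹ * x * g), W.conj f.2 g⟩
      map_add' := fun f f' => rfl
      map_smul' := fun c f => rfl }
  map_one' := by
    ext f x
    show f.1 (1⁻¹ * x * 1) = f.1 x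
    rw [inv_one, one_mul, mul_one]
  map_mul' g h := by
    ext f x
    show f.1 ((g * h)⁻¹ * x * (g * h)) = f.1 (h⁻¹ * (g⁻¹ * x * g) * h)
    congr 1
    group

theorem rep_apply [D.Normal] (g : G) (f : W V D) (x : G) : (rep V D g f).1 x = f.1 (g⁻¹ * x * g) :=
  rfl

/-- the space of the stable characters is finite-dimensional -/
theorem W.fin (hcom : Com V D) (v : V) {n : ℕ} (hPR : PR n (Sb D v)) :
    Module.Finite ℚ (W V D) := by
  classical
  obtain ⟨S, hS⟩ := hPR.det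
  let θ : W V D →ₗ[ℚ] (S → ℚ) :=
    { toFun := fun f s => f.1 (s.1 : G)
      map_add' := fun f g => rfl
      map_smul' := fun c f => rfl }
  refine Module.Finite.of_injective θ ?_
  rw [injective_iff_map_eq_zero]
  intro f hf
  apply Subtype.ext
  refine W.zero hcom f.2 v (Sb D v) ?_ fun x hx _ => ?_
  · rw [Subgroup.relIndex_self]
    exact one_ne_zero
  · exact hS (fun x : Sb D v => f.1 x) (W.qc f.2 v le_rfl) (fun s hs => congrFun hf ⟨s, hs⟩) ⟨x, hx⟩

/-- stable characters of infinite stabilizers -/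
theorem W.exists (hcom : Com V D) (v : V) {n : ℕ} (hPR : PR n (Sb D v)) (hinf : Infinite (Sb D v)) :
    ∃ f ∈ W V D, f ≠ 0 := by
  classical
  obtain ⟨B, hB, χ, b, hb⟩ := hPR.exists_char hinf
  obtain ⟨B0, hB0⟩ : ∃ B0 : Subgroup G, B0 = B.map (Sb D v).subtype := ⟨_, rfl⟩
  have hB0D : B0 ≤ Sb D v := by
    rw [hB0]
    exact Subgroup.map_subtype_le B
  have hB0i : B0.relIndex (Sb D v) ≠ 0 := by
    have h1 : B0.subgroupOf (Sb D v) = B := by
      rw [hB0]
      exact Subgroup.comap_map_eq_self_of_injective (Subgroup.subtype_injective _) B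
    rw [Subgroup.relIndex, h1]
    exact hB.index_ne_zero
  -- the character as a function
  obtain ⟨c, hc⟩ : ∃ c : G → ℚ, ∀ x : B, c ((x : Sb D v) : G) = (χ x).toAdd := by
    refine ⟨fun x => if h : ∃ y : B, ((y : Sb D v) : G) = x then (χ (Classical.choose h)).toAdd
      else 0, fun x => ?_⟩
    have h : ∃ y : B, ((y : Sb D v) : G) = ((x : Sb D v) : G) := ⟨x, rfl⟩
    show dite _ _ _ = _
    rw [dif_pos h]
    have h1 := Classical.choose_spec h
    have h2 : Classical.choose h = x := Subtype.ext (Subtype.ext h1)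
    rw [h2]
  have hB0m : ∀ x ∈ B0, ∃ y : B, ((y : Sb D v) : G) = x := by
    intro x hx
    rw [hB0] at hx
    obtain ⟨y, hy, rfl⟩ := hx
    exact ⟨⟨y, hy⟩, rfl⟩
  have hcm : ∀ x ∈ B0, ∀ y ∈ B0, c (x * y) = c x + c y := by
    intro x hx y hy
    obtain ⟨x, rfl⟩ := hB0m x hx
    obtain ⟨y, rfl⟩ := hB0m y hy
    have h1 : (((x : Sb D v) : G) * ((y : Sb D v) : G)) = (((x * y : B) : Sb D v) : G) := rfl
    rw [h1, hc, hc, hc, map_mul]
    rfl
  have hcp : ∀ x ∈ B0, ∀ n : ℕ, c (x ^ n) = n * c x := by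
    intro x hx n
    obtain ⟨x, rfl⟩ := hB0m x hx
    have h1 : (((x : Sb D v) : G)) ^ n = (((x ^ n : B) : Sb D v) : G) := rfl
    rw [h1, hc, hc, map_pow, toAdd_pow, nsmul_eq_mul]
  obtain ⟨f, hf1, hf0⟩ : ∃ f : G → ℚ, (∀ (x : G) (n : ℕ), 0 < n → x ^ n ∈ B0 → f x = c (x ^ n) / n) ∧
      ∀ x : G, (∀ n : ℕ, 0 < n → x ^ n ∉ B0) → f x = 0 := by
    refine ⟨fun x => if h : ∃ n : ℕ, 0 < n ∧ x ^ n ∈ B0 then
      c (x ^ (Classical.choose h)) / (Classical.choose h : ℕ) else 0, ?_, ?_⟩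
    · intro x n hn hx
      have h : ∃ n : ℕ, 0 < n ∧ x ^ n ∈ B0 := ⟨n, hn, hx⟩
      show dite _ _ _ = _
      rw [dif_pos h]
      obtain ⟨h1, h2⟩ := Classical.choose_spec h
      generalize Classical.choose h = m at h1 h2
      have h3 : c (x ^ (m * n)) = n * c (x ^ m) := by rw [pow_mul, hcp _ h2]
      have h4 : c (x ^ (m * n)) = m * c (x ^ n) := by rw [mul_comm m n, pow_mul, hcp _ hx]
      have hm' : (m : ℚ) ≠ 0 := Nat.cast_ne_zero.2 h1.ne'
      have hn' : (n : ℚ) ≠ 0 := Nat.cast_ne_zero.2 hn.ne'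
      rw [div_eq_div_iff hm' hn', mul_comm _ (n : ℚ), mul_comm _ (m : ℚ), ← h3, ← h4]
    · intro x hx
      exact dif_neg fun ⟨n, hn, h⟩ => hx n hn h
  have hfB : ∀ x ∈ B0, f x = c x := by
    intro x hx
    rw [hf1 x 1 one_pos (by rwa [pow_one]), pow_one, Nat.cast_one, div_one]
  refine ⟨f, ⟨fun u => ?_, fun x k => ?_, fun x hx => ?_⟩, fun h0 => hb ?_⟩
  · have h1 : B0.relIndex (Sb D u) ≠ 0 := Subgroup.relIndex_ne_zero_trans hB0i (hcom v u)
    refine ⟨B0 ⊓ Sb D u, inf_le_right, ?_, ?_⟩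
    · rw [Subgroup.inf_relIndex_right]
      exact h1
    · intro x hx y hy
      rw [hfB _ hx.1, hfB _ hy.1, hfB _ (mul_mem hx.1 hy.1), hcm _ hx.1 _ hy.1]
  · by_cases hx : ∃ n : ℕ, 0 < n ∧ x ^ n ∈ B0
    · obtain ⟨n, hn, hx⟩ := hx
      have h1 : (x ^ k) ^ n = (x ^ n) ^ k := by rw [← pow_mul, ← pow_mul, mul_comm]
      have h2 : (x ^ k) ^ n ∈ B0 := by
        rw [h1]
        exact pow_mem hx k
      rw [hf1 _ n hn h2, hf1 x n hn hx, h1, hcp _ hx, mul_div_assoc]
    · push Not at hx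
      by_cases hk : k = 0
      · subst hk
        have h1 : (x ^ 0) ^ 1 ∈ B0 := by
          rw [pow_zero, one_pow]
          exact B0.one_mem
        have h2 : c 1 = 0 := by
          have := hcp 1 B0.one_mem 0
          rwa [pow_zero, Nat.cast_zero, zero_mul] at this
        rw [hf1 _ 1 one_pos h1, pow_zero, one_pow, h2, Nat.cast_zero, zero_mul, zero_div]
      · rw [hf0 x hx, mul_zero]
        refine hf0 _ fun n hn => ?_
        rw [← pow_mul]
        exact hx _ (Nat.mul_pos (Nat.pos_of_ne_zero hk) hn)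
  · exact hf0 x fun n hn h => hx v n hn (hB0D h)
  · have h1 : f ((b : Sb D v) : G) = 0 := by rw [h0]; rfl
    rw [hfB _ (by rw [hB0]; exact ⟨b, b.2, rfl⟩), hc] at h1
    exact h1

/-- the elements which act trivially -/
theorem rep_trivial [D.Normal] (hcom : Com V D) (v : V) {n : ℕ} (hPR : PR n (Sb D v)) :
    ∃ B : Subgroup G, B ≤ Sb D v ∧ B.relIndex (Sb D v) ≠ 0 ∧ ∀ x ∈ B, rep V D x = 1 := by
  have hfin := W.fin hcom v hPR
  let b := Module.finBasis ℚ (W V D)
  have h1 : ∀ i, ∃ B : Subgroup G, B ≤ Sb D v ∧ B.relIndex (Sb D v) ≠ 0 ∧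
      ∀ x ∈ B, ∀ y ∈ B, (b i).1 (x * y) = (b i).1 x + (b i).1 y := fun i => (b i).2.1 v
  choose B hBD hB hBf using h1
  refine ⟨(⨅ i, B i) ⊓ Sb D v, inf_le_right, ?_, fun x hx => ?_⟩
  · rw [Subgroup.inf_relIndex_right]
    exact Subgroup.relIndex_iInf_ne_zero hB
  · refine b.ext fun i => ?_
    rw [← sub_eq_zero]
    apply Subtype.ext
    refine W.zero hcom (Subtype.property _) v (B i) (hB i) fun y hy _ => ?_
    have hxi : x ∈ B i := (Subgroup.mem_iInf.1 hx.1) i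
    show (b i).1 (x⁻¹ * y * x) - (b i).1 y = 0
    rw [hBf i _ (mul_mem (inv_mem hxi) hy) _ hxi, hBf i _ (inv_mem hxi) _ hy]
    have h2 := hBf i x⁻¹ (inv_mem hxi) x hxi
    rw [inv_mul_cancel, W.one (b i).2] at h2
    linarith

end Pool.Agent.U863.CS
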