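import Pool.Agent.U863.CS.FinK
import Pool.Agent.U863.CS.Ws

/-!
# The induction
-/

set_option autoImplicit false

namespace Pool.Agent.U863.CS

open SimpleGraph
open scoped commutatorElement
open Pool.Agent.Y110.FJ
open Pool.Agent.Y462.SS (Closed)
open Pool.Agent.N509.TK (Sb Sb_conj Sb_le Sb_normal mem_Sb Tq Tv quot_tree metab)
open Pool.Agent.R941.FJ (C_equiv C_le C_cyc mem_sup_normal)

section gen

variable {C : ∀ (G : Type) [Group G], Prop}

/-- the intersection of the kernels of all homomorphisms to `M` -/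
def RK {G : Type} [Group G] (H : Subgroup G) (M : Type) [Group M] : Subgroup G where
  carrier := {x | ∃ h : x ∈ H, ∀ φ : H →* M, φ ⟨x, h⟩ = 1}
  one_mem' := ⟨H.one_mem, fun φ => map_one φ⟩
  mul_mem' := by
    rintro x y ⟨hx, hx'⟩ ⟨hy, hy'⟩
    refine ⟨mul_mem hx hy, fun φ => ?_⟩
    have h1 : φ (⟨x, hx⟩ * ⟨y, hy⟩) = 1 := by rw [map_mul, hx', hy', mul_one]
    exact h1
  inv_mem' := by
    rintro x ⟨hx, hx'⟩
    refine ⟨inv_mem hx, fun φ => ?_⟩
    have h1 : φ (⟨x, hx⟩⁻¹) = 1 := by rw [map_inv, hx', inv_one]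
    exact h1

theorem RK_le {G : Type} [Group G] (H : Subgroup G) (M : Type) [Group M] : RK H M ≤ H :=
  fun _ hx => hx.1

theorem RK_normal {G : Type} [Group G] (H : Subgroup G) [hH : H.Normal] (M : Type) [Group M] :
    (RK H M).Normal := by
  refine ⟨fun x hx g => ?_⟩
  obtain ⟨hx, hx'⟩ := hx
  refine ⟨hH.conj_mem x hx g, fun φ => ?_⟩
  exact hx' (φ.comp (MulAut.conjNormal (H := H) g).toMonoidHom)

theorem RK_comm {G : Type} [Group G] (H : Subgroup G) (M : Type) [CommGroup M] : ⁅H, H⁆ ≤ RK H M := by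
  rw [Subgroup.commutator_le]
  intro x hx y hy
  have h1 : ⁅x, y⁆ ∈ H := Subgroup.commutator_le_self H (Subgroup.commutator_mem_commutator hx hy)
  refine ⟨h1, fun φ => ?_⟩
  have h2 : (⟨⁅x, y⁆, h1⟩ : H) = ⁅(⟨x, hx⟩ : H), ⟨y, hy⟩⁆ := rfl
  rw [h2, map_commutatorElement, commutatorElement_eq_one_iff_mul_comm, mul_comm]

theorem C_of_hom (hC : Closed C) {G P : Type} [Group G] [Group P] (f : G →* P) (hP : C P)
    (K : Subgroup G) [K.Normal] (hK : ∀ x, x ∈ K ↔ f x = 1) : C (G ⧸ K) := by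
  refine hC.of_injective _ P (QuotientGroup.lift K f fun x hx => (hK x).1 hx) ?_ hP
  rw [injective_iff_map_eq_one]
  intro q hq
  obtain ⟨x, rfl⟩ := QuotientGroup.mk_surjective q
  exact (QuotientGroup.eq_one_iff x).2 ((hK x).2 hq)

/-- quotients by a subgroup which contains the commutator subgroup -/
theorem ab_quot (hC : ClosedE C) (hM : ∀ (G : Type) [Group G], derivedSeries G 2 = ⊥ → C G)
    {G : Type} [Group G] (H D : Subgroup G) [hHn : H.Normal] [hDn : D.Normal] (hDH : D ≤ H)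
    (hcm : ⁅H, H⁆ ≤ D) (hGH : C (G ⧸ H)) : C (G ⧸ D) := by
  have hNn : (H.map (QuotientGroup.mk' D)).Normal :=
    Subgroup.Normal.map inferInstance _ (QuotientGroup.mk'_surjective _)
  obtain ⟨N, hN⟩ : ∃ N : Subgroup (G ⧸ D), N = H.map (QuotientGroup.mk' D) := ⟨_, rfl⟩
  rw [← hN] at hNn
  have hQN : C ((G ⧸ D) ⧸ N) := by
    subst hN
    exact C_equiv hC.base (QuotientGroup.quotientQuotientEquivQuotient D H hDH) hGH
  have hab : ∀ x ∈ N, ∀ y ∈ N, x * y = y * x := by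
    rw [hN]
    rintro _ ⟨a, ha, rfl⟩ _ ⟨b, hb, rfl⟩
    rw [← map_mul, ← map_mul]
    refine QuotientGroup.eq.2 ?_
    have h1 : (a * b)⁻¹ * (b * a) = ⁅b⁻¹, a⁻¹⁆ := by
      rw [commutatorElement_def]
      group
    rw [h1]
    exact hcm (Subgroup.commutator_mem_commutator (H.inv_mem hb) (H.inv_mem ha))
  have key : ∀ g : G ⧸ D, C ↥(N ⊔ Subgroup.zpowers g) := by
    intro g
    refine hM _ (metab (N.subgroupOf (N ⊔ Subgroup.zpowers g)) ?_ ?_)
    · intro x hx y hy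
      exact Subtype.ext (hab x hx y hy)
    · rintro ⟨x, hx⟩ ⟨y, hy⟩
      obtain ⟨a, ha, _, ⟨i, rfl⟩, rfl⟩ := mem_sup_normal.1 hx
      obtain ⟨b, hb, _, ⟨j, rfl⟩, rfl⟩ := mem_sup_normal.1 hy
      rw [Subgroup.mem_subgroupOf]
      show ⁅a * g ^ i, b * g ^ j⁆ ∈ N
      rw [← QuotientGroup.eq_one_iff]
      have h1 : ((⁅a * g ^ i, b * g ^ j⁆ : G ⧸ D) : (G ⧸ D) ⧸ N) =
          ⁅((a * g ^ i : G ⧸ D) : (G ⧸ D) ⧸ N), ((b * g ^ j : G ⧸ D) : (G ⧸ D) ⧸ N)⁆ := rfl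
      rw [h1, QuotientGroup.mk_mul, QuotientGroup.mk_mul, (QuotientGroup.eq_one_iff a).2 ha,
        (QuotientGroup.eq_one_iff b).2 hb, one_mul, one_mul, commutatorElement_eq_one_iff_mul_comm]
      show ((g : (G ⧸ D) ⧸ N)) ^ i * ((g : (G ⧸ D) ⧸ N)) ^ j = _
      rw [← zpow_add, add_comm, zpow_add]
      rfl
  refine Pool.Agent.Y529.FJ.t_ext C hC _ N ?_ hQN fun g _ => key g
  exact C_le hC.base le_sup_left (key 1)

end gen

section tree

variable {G V : Type} {T : SimpleGraph V} [Group G] [MulAction G V]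
  {C : ∀ (G : Type) [Group G], Prop}

theorem Sb_inf {D L : Subgroup G} (h : L ≤ D) (v : V) : Sb L v = Sb D v ⊓ L := by
  ext x
  constructor
  · rintro ⟨h1, h2⟩
    exact ⟨⟨h1, h h2⟩, h2⟩
  · rintro ⟨⟨h1, -⟩, h2⟩
    exact ⟨h1, h2⟩

theorem Com.of_le {D L : Subgroup G} (hD : Com V D) (h : L ≤ D) : Com V L := by
  intro u v
  have h1 : (Sb D u).relIndex (Sb L v) ≠ 0 :=
    mt (Subgroup.relIndex_eq_zero_of_le_right (inf_le_inf_left _ h)) (hD u v)
  have h2 : Sb D u ⊓ Sb L v = Sb L u ⊓ Sb L v := by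
    rw [Sb_inf h u, Sb_inf h v]
    ext x
    constructor
    · rintro ⟨a, b, c⟩
      exact ⟨⟨a, c⟩, b, c⟩
    · rintro ⟨⟨a, c⟩, b, c'⟩
      exact ⟨a, b, c⟩
  rw [← Subgroup.inf_relIndex_right, h2, Subgroup.inf_relIndex_right] at h1
  exact h1

/-- **one step** -/
theorem step (hC : ClosedE C) (hM : ∀ (G : Type) [Group G], derivedSeries G 2 = ⊥ → C G)
    (hGL : ∀ m : ℕ, C (GL (Fin m) ℚ)) (hT : T.IsTree)
    (hact : ∀ (g : G) (u v : V), T.Adj u v → T.Adj (g • u) (g • v)) {m : ℕ}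
    (D : Subgroup G) [hDn : D.Normal] (hQ : C (G ⧸ D)) (hcom : Com V D)
    (hPR : ∀ v : V, PR (m + 1) (Sb D v)) (v0 : V) (hinf : Infinite (Sb D v0)) :
    ∃ (D' : Subgroup G) (_ : D'.Normal), C (G ⧸ D') ∧ Com V D' ∧ ∀ v : V, PR m (Sb D' v) := by
  obtain ⟨f, hf, hf0⟩ := W.exists hcom v0 (hPR v0) hinf
  have hfin := W.fin hcom v0 (hPR v0)
  let b := Module.finBasis ℚ (W V D)
  let e := LinearMap.toMatrixAlgEquiv b
  let ρ : G →* GL (Fin (Module.finrank ℚ (W V D))) ℚ :=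
    ((e.toMulEquiv.toMonoidHom).comp (rep V D)).toHomUnits
  have hρ : ∀ x, ρ x = 1 ↔ rep V D x = 1 := by
    intro x
    constructor
    · intro h
      have h1 : e (rep V D x) = 1 := congrArg Units.val h
      exact e.injective (by rw [h1, map_one])
    · intro h
      apply Units.ext
      show e (rep V D x) = 1
      rw [h, map_one]
  let F : G →* (G ⧸ D) × GL (Fin (Module.finrank ℚ (W V D))) ℚ := (QuotientGroup.mk' D).prod ρ
  obtain ⟨K, hK⟩ : ∃ K : Subgroup G, K = F.ker := ⟨_, rfl⟩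
  have hKn : K.Normal := by
    rw [hK]
    infer_instance
  have hKm : ∀ x, x ∈ K ↔ x ∈ D ∧ rep V D x = 1 := by
    intro x
    rw [hK, MonoidHom.mem_ker]
    constructor
    · intro h
      exact ⟨(QuotientGroup.eq_one_iff x).1 (congrArg Prod.fst h), (hρ x).1 (congrArg Prod.snd h)⟩
    · rintro ⟨h1, h2⟩
      exact Prod.ext ((QuotientGroup.eq_one_iff x).2 h1) ((hρ x).2 h2)
  have hKD : K ≤ D := fun x hx => ((hKm x).1 hx).1
  have hGK : C (G ⧸ K) := C_of_hom hC.base F (hC.base.prod _ _ hQ (hGL _)) K (fun x => by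
    rw [hK, MonoidHom.mem_ker])
  have hKc := hcom.of_le hKD
  -- the group generated by the stabilizers
  have hHn : (⨆ v : V, Sb K v).Normal := Sb_normal K
  have hGH := C_quot_Sb hC hT hact K hGK
  obtain ⟨H, hH⟩ : ∃ H : Subgroup G, H = ⨆ v : V, Sb K v := ⟨_, rfl⟩
  have hHv : ∀ v : V, Sb K v ≤ H := fun v => by
    rw [hH]
    exact le_iSup (Sb K) v
  have hHK : H ≤ K := by
    rw [hH]
    exact Sb_le K
  have hinv : ∀ k ∈ K, ∀ x, f (k⁻¹ * x * k) = f x := by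
    intro k hk x
    have h1 := ((hKm k).1 hk).2
    have h2 : (rep V D k ⟨f, hf⟩).1 x = f x := by rw [h1]; rfl
    exact h2
  -- the stable character is a homomorphism on the stabilizers
  have hadd : ∀ v : V, ∀ x ∈ Sb K v, ∀ y ∈ Sb K v, f (x * y) = f x + f y := by
    intro v x hx y hy
    exact QC.add (W.qc hf v (inf_le_inf_left _ hKD : Sb K v ≤ Sb D v))
      (fun k z => hinv k k.2.2 z) ⟨x, hx⟩ ⟨y, hy⟩
  obtain ⟨φ, hφ, hφv⟩ := exists_hom hT hact K (fun _ x => Multiplicative.ofAdd (f x))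
    (fun v x hx y hy => congrArg Multiplicative.ofAdd (hadd v x hx y hy)) (fun u v _ x _ _ => rfl)
  have hφf : ∀ v : V, ∀ x ∈ Sb K v, φ x = Multiplicative.ofAdd (f x) := by
    intro v x hx
    obtain ⟨c, w, s, hs, h1⟩ := hφv v
    obtain ⟨-, h2⟩ := h1 x hx
    rw [h2, hinv s (Sb_le K hs) x, mul_comm c, mul_inv_cancel_right]
  rw [← hH] at hHn hφ
  have hGH' : C (G ⧸ H) := by
    subst hH
    exact hGH
  have hDn' := RK_normal H (Multiplicative ℚ)
  have hD'K : RK H (Multiplicative ℚ) ≤ K := (RK_le H _).trans hHK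
  refine ⟨RK H (Multiplicative ℚ), hDn',
    ab_quot hC hM H _ (RK_le H _) (RK_comm H _) hGH', hKc.of_le hD'K, fun v => ?_⟩
  -- the restriction to the stabilizer of `v`
  let χ : Sb K v →* Multiplicative ℚ := (show PH (Sb K v) (fun x => Multiplicative.ofAdd (f x)) from
    fun x hx y hy => congrArg Multiplicative.ofAdd (hadd v x hx y hy)).hom
  have hχ : ∃ x, χ x ≠ 1 := by
    by_contra hcon
    push Not at hcon
    apply hf0
    obtain ⟨B, hBD, hB, hBr⟩ := rep_trivial hcom v (hPR v)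
    refine W.zero hcom hf v B hB fun x hxB hxD => ?_
    have h1 : x ∈ Sb K v := mem_Sb.2 ⟨hxD.1, (hKm x).2 ⟨hxD.2, hBr x hxB⟩⟩
    exact hcon ⟨x, h1⟩
  obtain ⟨m', hm', hk⟩ := ((hPR v).of_le (inf_le_inf_left _ hKD : Sb K v ≤ Sb D v)).ker χ hχ
  have hm : m' = m := by omega
  subst hm
  refine hk.inj _ (((Sb (RK H (Multiplicative ℚ)) v).subtype.codRestrict (Sb K v) (fun x =>
    mem_Sb.2 ⟨x.2.1, hD'K x.2.2⟩)).codRestrict χ.ker (fun x => ?_)) ?_
  · have h1 := x.2.2.2 hφ.hom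
    have h2 : φ (x : G) = 1 := h1
    rw [hφf v x (mem_Sb.2 ⟨x.2.1, hD'K x.2.2⟩)] at h2
    exact h2
  · intro x y hxy
    exact Subtype.ext (congrArg (fun z => ((z : Sb K v) : G)) (congrArg Subtype.val hxy))

/-- **finitely many orbits** -/
theorem coc (hC : ClosedE C) (hM : ∀ (G : Type) [Group G], derivedSeries G 2 = ⊥ → C G)
    (hGL : ∀ m : ℕ, C (GL (Fin m) ℚ)) (hT : T.IsTree)
    (hact : ∀ (g : G) (u v : V), T.Adj u v → T.Adj (g • u) (g • v))
    (Φ : Finset V) (hΦ : ∀ v : V, ∃ g : G, g • v ∈ Φ) (n : ℕ) :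
    ∀ (D : Subgroup G) [D.Normal], C (G ⧸ D) → Com V D → (∀ v : V, PR n (Sb D v)) → C G := by
  classical
  have hbdd : ∀ (D : Subgroup G) [D.Normal], C (G ⧸ D) → (∀ v : V, Finite (Sb D v)) → C G := by
    intro D _ hQ hfin
    refine bounded hC hT hact D hQ (n := ∑ w ∈ Φ, Nat.card (Sb D w)) hfin fun v => ?_
    obtain ⟨g, hg⟩ := hΦ v
    have h1 : Nat.card (Sb D v) = Nat.card (Sb D (g • v)) := by
      rw [← Sb_map g v]
      exact Nat.card_congr ((Sb D v).equivMapOfInjective _ (MulAut.conj g).injective).toEquiv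
    rw [h1]
    exact Finset.single_le_sum (f := fun w => Nat.card (Sb D w)) (fun _ _ => Nat.zero_le _) hg
  induction n with
  | zero =>
    intro D _ hQ _ hPR
    exact hbdd D hQ fun v => (hPR v).finite rfl
  | succ m ih =>
    intro D _ hQ hcom hPR
    by_cases h : ∀ v : V, Finite (Sb D v)
    · exact hbdd D hQ h
    · push Not at h
      obtain ⟨v0, hv0⟩ := h
      obtain ⟨D', _, h1, h2, h3⟩ := step hC hM hGL hT hact D hQ hcom hPR v0
        hv0
      exact ih D' h1 h2 h3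

end tree

end Pool.Agent.U863.CS
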